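import Mathlib

open Finset

namespace Run7.h382

set_option linter.unusedSectionVars false

variable {V : Type*} [Fintype V] [DecidableEq V]

/-- The polytope of fractional automorphisms of a finite graph: the doubly stochastic real
matrices commuting with the adjacency matrix. -/
def fracAut (G : SimpleGraph V) [DecidableRel G.Adj] : Set (Matrix V V ℝ) :=
  {X | (∀ u v, 0 ≤ X u v) ∧ (∀ u, ∑ v, X u v = 1) ∧ (∀ v, ∑ u, X u v = 1) ∧
    G.adjMatrix ℝ * X = X * G.adjMatrix ℝ}

/-- A finite graph is compact if every extreme point of its polytope of fractional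
automorphisms has integer entries. -/
def CompactGraph (G : SimpleGraph V) [DecidableRel G.Adj] : Prop :=
  ∀ X ∈ (fracAut G).extremePoints ℝ, ∀ u v, ∃ z : ℤ, X u v = z

/-- Automorphisms of a graph, as permutations. -/
def IsAut (G : SimpleGraph V) (g : Equiv.Perm V) : Prop :=
  ∀ u v, G.Adj (g u) (g v) ↔ G.Adj u v

/-- The permutation matrix with a one in position (g v, v). -/
def pm (g : Equiv.Perm V) : Matrix V V ℝ := fun u v => if u = g v then 1 else 0

variable {G : SimpleGraph V} [DecidableRel G.Adj]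

lemma pm_apply (g : Equiv.Perm V) (u v : V) : pm g u v = if u = g v then 1 else 0 := rfl

lemma pm_nonneg (g : Equiv.Perm V) (u v : V) : 0 ≤ pm g u v := by
  unfold pm; split_ifs <;> norm_num

lemma pm_row (g : Equiv.Perm V) (u : V) : ∑ v, pm g u v = 1 := by
  have : ∀ v, pm g u v = if g.symm u = v then 1 else 0 := by
    intro v; unfold pm
    by_cases h : u = g v
    · subst h; simp
    · rw [if_neg h, if_neg]; intro h'; exact h (by rw [← h']; simp)
  simp [this]

lemma pm_col (g : Equiv.Perm V) (v : V) : ∑ u, pm g u v = 1 := by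
  simp [pm]

lemma adj_mul_pm (g : Equiv.Perm V) (u v : V) :
    (G.adjMatrix ℝ * pm g) u v = if G.Adj u (g v) then 1 else 0 := by
  rw [Matrix.mul_apply]
  simp [pm, SimpleGraph.adjMatrix_apply]

lemma pm_mul_adj (g : Equiv.Perm V) (u v : V) :
    (pm g * G.adjMatrix ℝ) u v = if G.Adj (g.symm u) v then 1 else 0 := by
  rw [Matrix.mul_apply]
  rw [Finset.sum_eq_single (g.symm u)]
  · simp [pm, SimpleGraph.adjMatrix_apply]
  · intro b _ hb
    have : u ≠ g b := by
      intro h; apply hb; rw [h]; simp
    simp [pm, this]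
  · simp

lemma isAut_iff (g : Equiv.Perm V) :
    IsAut G g ↔ G.adjMatrix ℝ * pm g = pm g * G.adjMatrix ℝ := by
  constructor
  · intro h
    ext u v
    rw [adj_mul_pm, pm_mul_adj]
    have := h (g.symm u) v
    simp only [Equiv.apply_symm_apply] at this
    by_cases h1 : G.Adj u (g v)
    · rw [if_pos h1, if_pos (this.1 h1)]
    · rw [if_neg h1, if_neg (fun h2 => h1 (this.2 h2))]
  · intro h u v
    have h1 := congrFun (congrFun h (g u)) v
    rw [adj_mul_pm, pm_mul_adj] at h1
    simp only [Equiv.symm_apply_apply] at h1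
    constructor
    · intro h2
      by_contra h3
      rw [if_pos h2, if_neg h3] at h1
      norm_num at h1
    · intro h2
      by_contra h3
      rw [if_neg h3, if_pos h2] at h1
      norm_num at h1

lemma pm_mem {g : Equiv.Perm V} (h : IsAut G g) : pm g ∈ fracAut G :=
  ⟨pm_nonneg g, pm_row g, pm_col g, (isAut_iff g).1 h⟩

lemma fracAut_le_one {X : Matrix V V ℝ} (hX : X ∈ fracAut G) (u v : V) : X u v ≤ 1 := by
  rw [← hX.2.1 u]
  exact Finset.single_le_sum (fun w _ => hX.1 u w) (Finset.mem_univ v)

/-- Support criterion: if every fractional automorphism has an automorphism in its support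
then the graph is compact. -/
theorem compact_of_support
    (h : ∀ X ∈ fracAut G, ∃ g : Equiv.Perm V, IsAut G g ∧ ∀ v, 0 < X (g v) v) :
    CompactGraph G := by
  intro X hX u v
  obtain ⟨hXm, hXe⟩ := hX
  obtain ⟨g, hg, hpos⟩ := h X hXm
  -- a positive lower bound
  haveI : Nonempty V := ⟨u⟩
  obtain ⟨v0, -, hv0⟩ := Finset.exists_min_image (Finset.univ : Finset V) (fun v => X (g v) v)
    Finset.univ_nonempty
  set e : ℝ := X (g v0) v0 / 2 with he
  have hepos : 0 < e := by have := hpos v0; positivity
  have hele : e ≤ 1 / 2 := by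
    have := fracAut_le_one hXm (g v0) v0
    rw [he]; linarith
  have hmin : ∀ v, e ≤ X (g v) v := by
    intro v
    have h1 := hv0 v (Finset.mem_univ v)
    have h2 := hpos v0
    rw [he]
    linarith
  have h1e : (0:ℝ) < 1 - e := by linarith
  set Y : Matrix V V ℝ := (1 - e)⁻¹ • (X - e • pm g) with hY
  have hYm : Y ∈ fracAut G := by
    refine ⟨?_, ?_, ?_, ?_⟩
    · intro a b
      simp only [hY, Matrix.smul_apply, Matrix.sub_apply, smul_eq_mul]
      apply mul_nonneg (inv_nonneg.2 h1e.le)
      unfold pm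
      split_ifs with hab
      · subst hab
        have := hmin b
        linarith
      · have := hXm.1 a b
        linarith
    · intro a
      simp only [hY, Matrix.smul_apply, Matrix.sub_apply, smul_eq_mul]
      rw [← Finset.mul_sum, Finset.sum_sub_distrib, ← Finset.mul_sum, hXm.2.1, pm_row]
      field_simp
    · intro a
      simp only [hY, Matrix.smul_apply, Matrix.sub_apply, smul_eq_mul]
      rw [← Finset.mul_sum, Finset.sum_sub_distrib, ← Finset.mul_sum, hXm.2.2.1, pm_col]
      field_simp
    · rw [hY]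
      rw [Matrix.mul_smul, Matrix.smul_mul, Matrix.mul_sub, Matrix.sub_mul, Matrix.mul_smul,
        Matrix.smul_mul, hXm.2.2.2, (isAut_iff g).1 hg]
  have hseg : X ∈ openSegment ℝ (pm g) Y := by
    refine ⟨e, 1 - e, hepos, h1e, by ring, ?_⟩
    rw [hY, smul_smul, mul_inv_cancel₀ h1e.ne', one_smul]
    abel
  have := hXe (pm_mem hg) hYm hseg
  rw [← this]
  unfold pm
  split_ifs
  · exact ⟨1, by simp⟩
  · exact ⟨0, by simp⟩

lemma convex_fracAut : Convex ℝ (fracAut G) := by
  intro X hX Y hY a b ha hb hab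
  refine ⟨?_, ?_, ?_, ?_⟩
  · intro u v
    simp only [Matrix.add_apply, Matrix.smul_apply, smul_eq_mul]
    have := hX.1 u v
    have := hY.1 u v
    positivity
  · intro u
    simp only [Matrix.add_apply, Matrix.smul_apply, smul_eq_mul]
    rw [Finset.sum_add_distrib, ← Finset.mul_sum, ← Finset.mul_sum, hX.2.1, hY.2.1]
    linarith
  · intro u
    simp only [Matrix.add_apply, Matrix.smul_apply, smul_eq_mul]
    rw [Finset.sum_add_distrib, ← Finset.mul_sum, ← Finset.mul_sum, hX.2.2.1, hY.2.2.1]
    linarith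
  · rw [Matrix.mul_add, Matrix.add_mul, Matrix.mul_smul, Matrix.mul_smul, Matrix.smul_mul,
      Matrix.smul_mul, hX.2.2.2, hY.2.2.2]

lemma isCompact_fracAut : IsCompact (fracAut G) := by
  have hsub : fracAut G ⊆ Set.pi Set.univ (fun _ : V => Set.pi Set.univ
      (fun _ : V => Set.Icc (0:ℝ) 1)) := by
    intro X hX u _ v _
    exact ⟨hX.1 u v, fracAut_le_one hX u v⟩
  have hc : IsCompact (Set.pi Set.univ (fun _ : V => Set.pi Set.univ
      (fun _ : V => Set.Icc (0:ℝ) 1))) :=
    isCompact_univ_pi fun _ => isCompact_univ_pi fun _ => isCompact_Icc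
  refine hc.of_isClosed_subset ?_ hsub
  have h1 : IsClosed {X : Matrix V V ℝ | ∀ u v, 0 ≤ X u v} := by
    simp only [Set.ofPred_forall]
    refine isClosed_iInter fun u => isClosed_iInter fun v => ?_
    exact isClosed_le continuous_const (continuous_apply_apply u v)
  have h2 : IsClosed {X : Matrix V V ℝ | ∀ u, ∑ v, X u v = 1} := by
    simp only [Set.ofPred_forall]
    refine isClosed_iInter fun u => ?_
    exact isClosed_eq (continuous_finsetSum _ fun v _ => continuous_apply_apply u v)
      continuous_const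
  have h3 : IsClosed {X : Matrix V V ℝ | ∀ v, ∑ u, X u v = 1} := by
    simp only [Set.ofPred_forall]
    refine isClosed_iInter fun v => ?_
    exact isClosed_eq (continuous_finsetSum _ fun u _ => continuous_apply_apply u v)
      continuous_const
  have h4 : IsClosed {X : Matrix V V ℝ | G.adjMatrix ℝ * X = X * G.adjMatrix ℝ} := by
    apply isClosed_eq
    · exact Continuous.matrix_mul continuous_const continuous_id
    · exact Continuous.matrix_mul continuous_id continuous_const
  have : fracAut G = {X : Matrix V V ℝ | ∀ u v, 0 ≤ X u v} ∩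
      ({X : Matrix V V ℝ | ∀ u, ∑ v, X u v = 1} ∩ ({X : Matrix V V ℝ | ∀ v, ∑ u, X u v = 1} ∩
        {X : Matrix V V ℝ | G.adjMatrix ℝ * X = X * G.adjMatrix ℝ})) := by
    ext X; rfl
  rw [this]
  exact h1.inter (h2.inter (h3.inter h4))

/-- An integral doubly stochastic matrix is a permutation matrix. -/
lemma exists_pm_of_integral {X : Matrix V V ℝ} (h0 : ∀ u v, 0 ≤ X u v)
    (h1 : ∀ u, ∑ v, X u v = 1) (h2 : ∀ v, ∑ u, X u v = 1)
    (hz : ∀ u v, ∃ z : ℤ, X u v = z) : ∃ g : Equiv.Perm V, X = pm g := by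
  have hX : X ∈ doublyStochastic ℝ V := by
    rw [mem_doublyStochastic_iff_sum]
    exact ⟨h0, h1, h2⟩
  obtain ⟨w, hw0, hw1, hw⟩ := exists_eq_sum_perm_of_mem_doublyStochastic hX
  obtain ⟨s, hs⟩ : ∃ s, 0 < w s := by
    by_contra hcon
    push Not at hcon
    have : ∑ s, w s = 0 := Finset.sum_eq_zero fun s _ => le_antisymm (hcon s) (hw0 s)
    rw [hw1] at this
    norm_num at this
  have hpos : ∀ u, 0 < X u (s u) := by
    intro u
    rw [← hw, Matrix.sum_apply]
    refine lt_of_lt_of_le hs ?_
    have : w s = (w s • s.permMatrix ℝ) u (s u) := by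
      simp [Equiv.toPEquiv_apply]
    rw [this]
    apply Finset.single_le_sum (f := fun c => (w c • c.permMatrix ℝ) u (s u)) _
      (Finset.mem_univ s)
    intro c _
    simp only [Matrix.smul_apply, smul_eq_mul]
    apply mul_nonneg (hw0 c)
    exact nonneg_of_mem_doublyStochastic permMatrix_mem_doublyStochastic
  have hone : ∀ u, X u (s u) = 1 := by
    intro u
    obtain ⟨z, hzz⟩ := hz u (s u)
    have h3 := hpos u
    have h4 : X u (s u) ≤ 1 := by
      rw [← h1 u]
      exact Finset.single_le_sum (fun w _ => h0 u w) (Finset.mem_univ _)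
    rw [hzz] at h3 h4 ⊢
    have h5 : (0:ℤ) < z := by exact_mod_cast h3
    have h6 : z ≤ 1 := by exact_mod_cast h4
    have : z = 1 := by omega
    rw [this]; simp
  refine ⟨s.symm, ?_⟩
  ext u v
  unfold pm
  by_cases huv : u = s.symm v
  · rw [if_pos huv]
    have : v = s u := by rw [huv]; simp
    rw [this]; exact hone u
  · rw [if_neg huv]
    have hne : v ≠ s u := by
      intro h; apply huv; rw [h]; simp
    have h3 := h1 u
    have h4 : X u v + X u (s u) ≤ ∑ w, X u w := by
      rw [← Finset.sum_pair hne]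
      exact Finset.sum_le_sum_of_subset_of_nonneg (Finset.subset_univ _) fun w _ _ => h0 u w
    rw [h3, hone u] at h4
    have := h0 u v
    linarith

lemma km_aux (F S : Set (V → V → ℝ)) (hF : IsCompact F) (hc : Convex ℝ F) (hS : S.Finite)
    (he : F.extremePoints ℝ ⊆ S) : F ⊆ convexHull ℝ S := by
  intro X hX
  have h1 := closure_convexHull_extremePoints hF hc
  rw [← h1] at hX
  have h2 := closure_mono (convexHull_mono (𝕜 := ℝ) he) hX
  rwa [(Set.Finite.isClosed_convexHull ℝ hS).closure_eq] at h2

/-- A graph is compact exactly when every fractional automorphism is a convex combination of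
automorphisms. -/
theorem compact_iff :
    CompactGraph G ↔ ∀ X ∈ fracAut G, ∃ w : Equiv.Perm V → ℝ, (∀ g, 0 ≤ w g) ∧ ∑ g, w g = 1 ∧
      (∀ g, w g ≠ 0 → IsAut G g) ∧ ∑ g, w g • pm g = X := by
  classical
  constructor
  · intro h X hX
    have hfin : ({Y | ∃ g : Equiv.Perm V, IsAut G g ∧ pm g = Y} : Set (Matrix V V ℝ)).Finite := by
      apply (Set.finite_range (fun g : Equiv.Perm V => (pm g : Matrix V V ℝ))).subset
      rintro Y ⟨g, -, rfl⟩
      exact ⟨g, rfl⟩
    have hext : (fracAut G).extremePoints ℝ ⊆ {Y | ∃ g : Equiv.Perm V, IsAut G g ∧ pm g = Y} := by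
      intro Y hY
      have hYm := hY.1
      obtain ⟨g, hg⟩ := exists_pm_of_integral hYm.1 hYm.2.1 hYm.2.2.1 (h Y hY)
      refine ⟨g, ?_, hg.symm⟩
      rw [isAut_iff, ← hg]
      exact hYm.2.2.2
    have hXc : X ∈ convexHull ℝ
        ({Y | ∃ g : Equiv.Perm V, IsAut G g ∧ pm g = Y} : Set (V → V → ℝ)) :=
      km_aux (fracAut G) _ isCompact_fracAut convex_fracAut hfin hext hX
    -- the set of good matrices is convex and contains the automorphisms
    let Q : Set (V → V → ℝ) := {X | ∃ w : Equiv.Perm V → ℝ, (∀ g, 0 ≤ w g) ∧ ∑ g, w g = 1 ∧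
      (∀ g, w g ≠ 0 → IsAut G g) ∧ ∀ u v, ∑ g, w g * pm g u v = X u v}
    have hQ : Convex ℝ Q := by
      rintro X ⟨w, hw0, hw1, hwa, hw⟩ Y ⟨w', hw0', hw1', hwa', hw'⟩ a b ha hb hab
      refine ⟨fun g => a * w g + b * w' g, ?_, ?_, ?_, ?_⟩
      · intro g
        have := hw0 g
        have := hw0' g
        positivity
      · rw [Finset.sum_add_distrib, ← Finset.mul_sum, ← Finset.mul_sum, hw1, hw1']
        linarith
      · intro g hg
        by_cases h1 : w g = 0
        · by_cases h2 : w' g = 0
          · simp [h1, h2] at hg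
          · exact hwa' g h2
        · exact hwa g h1
      · intro u v
        show _ = a * X u v + b * Y u v
        rw [← hw, ← hw', Finset.mul_sum, Finset.mul_sum, ← Finset.sum_add_distrib]
        apply Finset.sum_congr rfl
        intro g _
        ring
    have hsub : ({Y | ∃ g : Equiv.Perm V, IsAut G g ∧ pm g = Y} : Set (V → V → ℝ)) ⊆ Q := by
      rintro Y ⟨g, hg, rfl⟩
      refine ⟨fun c => if c = g then 1 else 0, ?_, ?_, ?_, ?_⟩
      · intro c; dsimp; split_ifs <;> norm_num
      · simp
      · intro c hc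
        by_cases h1 : c = g
        · rw [h1]; exact hg
        · simp [h1] at hc
      · intro u v; simp
    obtain ⟨w, h1, h2, h3, h4⟩ := convexHull_min hsub hQ hXc
    refine ⟨w, h1, h2, h3, ?_⟩
    ext u v
    rw [Matrix.sum_apply]
    simpa using h4 u v
  · intro h
    apply compact_of_support
    intro X hX
    obtain ⟨w, hw0, hw1, hwa, hw⟩ := h X hX
    obtain ⟨g, hg⟩ : ∃ g, 0 < w g := by
      by_contra hcon
      push Not at hcon
      have : ∑ s, w s = 0 := Finset.sum_eq_zero fun s _ => le_antisymm (hcon s) (hw0 s)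
      rw [hw1] at this
      norm_num at this
    refine ⟨g, hwa g hg.ne', fun v => ?_⟩
    rw [← hw, Matrix.sum_apply]
    refine lt_of_lt_of_le hg ?_
    have : w g = (w g • pm g : Matrix V V ℝ) (g v) v := by
      simp [pm]
    rw [this]
    apply Finset.single_le_sum (f := fun c => (w c • pm c : Matrix V V ℝ) (g v) v) _
      (Finset.mem_univ g)
    intro c _
    simp only [Matrix.smul_apply, smul_eq_mul]
    exact mul_nonneg (hw0 c) (pm_nonneg c _ _)

/-- In a compact graph every fractional automorphism has an automorphism in its support. -/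
theorem support_of_compact (h : CompactGraph G) {X : Matrix V V ℝ} (hX : X ∈ fracAut G) :
    ∃ g : Equiv.Perm V, IsAut G g ∧ ∀ v, 0 < X (g v) v := by
  obtain ⟨w, hw0, hw1, hwa, hw⟩ := compact_iff.1 h X hX
  obtain ⟨g, hg⟩ : ∃ g, 0 < w g := by
    by_contra hcon
    push Not at hcon
    have : ∑ s, w s = 0 := Finset.sum_eq_zero fun s _ => le_antisymm (hcon s) (hw0 s)
    rw [hw1] at this
    norm_num at this
  refine ⟨g, hwa g hg.ne', fun v => ?_⟩
  rw [← hw, Matrix.sum_apply]
  refine lt_of_lt_of_le hg ?_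
  have : w g = (w g • pm g : Matrix V V ℝ) (g v) v := by
    simp [pm]
  rw [this]
  apply Finset.single_le_sum (f := fun c => (w c • pm c : Matrix V V ℝ) (g v) v) _
    (Finset.mem_univ g)
  intro c _
  simp only [Matrix.smul_apply, smul_eq_mul]
  exact mul_nonneg (hw0 c) (pm_nonneg c _ _)

end Run7.h382
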