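import Mathlib
import Pool.Agent.Run7.h382.Basic

open Finset

namespace Run7.h382

set_option linter.unusedSectionVars false

variable {R : Type*} [AddCommGroup R] [Fintype R] [DecidableEq R]

/-- The Cayley graph of an abelian group: u and v are adjacent when u - v lies in S. -/
def cay (S : Finset R) (h0 : (0 : R) ∉ S) (hneg : ∀ s ∈ S, -s ∈ S) : SimpleGraph R where
  Adj u v := u - v ∈ S
  symm := ⟨fun u v h => by
    have := hneg _ h
    rwa [neg_sub] at this⟩
  loopless := ⟨fun u h => h0 (by simpa using h)⟩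

variable {S : Finset R} {h0 : (0 : R) ∉ S} {hneg : ∀ s ∈ S, -s ∈ S}

instance : DecidableRel (cay S h0 hneg).Adj := fun u v => inferInstanceAs (Decidable (u - v ∈ S))

lemma cay_adj (u v : R) : (cay S h0 hneg).Adj u v ↔ u - v ∈ S := Iff.rfl

/-- The eigenvalue attached to a character. -/
noncomputable def lam (S : Finset R) (χ : AddChar R ℂ) : ℂ := ∑ s ∈ S, χ s

lemma lam_neg (hneg : ∀ s ∈ S, -s ∈ S) (χ : AddChar R ℂ) : ∑ s ∈ S, χ (-s) = lam S χ := by
  unfold lam
  apply Finset.sum_bij (fun s _ => -s)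
  · intro s hs; exact hneg s hs
  · intro a _ b _ h; exact neg_injective h
  · intro b hb; exact ⟨-b, hneg b hb, by simp⟩
  · intro a _; rfl

/-- Sum over the neighbours of w from the left. -/
lemma sum_adj_left (f : R → ℂ) (w : R) :
    ∑ u, (((cay S h0 hneg).adjMatrix ℝ u w : ℝ) : ℂ) * f u = ∑ s ∈ S, f (s + w) := by
  have h1 : ∀ u, (((cay S h0 hneg).adjMatrix ℝ u w : ℝ) : ℂ) * f u
      = if u - w ∈ S then f u else 0 := by
    intro u
    rw [SimpleGraph.adjMatrix_apply]
    by_cases h : u - w ∈ S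
    · rw [if_pos h, if_pos ((cay_adj u w).2 h)]; simp
    · rw [if_neg h, if_neg (fun h' => h ((cay_adj u w).1 h'))]; simp
  rw [Finset.sum_congr rfl fun u _ => h1 u, ← Finset.sum_filter]
  symm
  apply Finset.sum_bij (fun s _ => s + w)
  · intro s hs; simpa using hs
  · intro a _ b _ h; exact add_right_cancel h
  · intro b hb
    refine ⟨b - w, ?_, by simp⟩
    simpa using hb
  · intro a _; rfl

lemma sum_adj_right (f : R → ℂ) (w : R) :
    ∑ u, (((cay S h0 hneg).adjMatrix ℝ w u : ℝ) : ℂ) * f u = ∑ s ∈ S, f (s + w) := by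
  rw [← sum_adj_left (h0 := h0) (hneg := hneg)]
  apply Finset.sum_congr rfl
  intro u _
  rw [SimpleGraph.adjMatrix_apply, SimpleGraph.adjMatrix_apply]
  simp only [(cay S h0 hneg).adj_comm]

/-- The double Fourier coefficient. -/
noncomputable def TT (X : Matrix R R ℝ) (χ ψ : AddChar R ℂ) : ℂ :=
  ∑ u, ∑ v, (X u v : ℂ) * χ (-u) * ψ v

lemma TT_comm {X : Matrix R R ℝ} (hX : X ∈ fracAut (cay S h0 hneg)) (χ ψ : AddChar R ℂ) :
    (lam S χ - lam S ψ) * TT X χ ψ = 0 := by
  have hc := hX.2.2.2
  have hc' : ∀ u v, ∑ w, (((cay S h0 hneg).adjMatrix ℝ u w : ℝ) : ℂ) * (X w v : ℂ)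
      = ∑ w, (X u w : ℂ) * (((cay S h0 hneg).adjMatrix ℝ w v : ℝ) : ℂ) := by
    intro u v
    have := congrFun (congrFun hc u) v
    rw [Matrix.mul_apply, Matrix.mul_apply] at this
    exact_mod_cast this
  have h1 : lam S χ * TT X χ ψ = ∑ u, ∑ v, (∑ w, (((cay S h0 hneg).adjMatrix ℝ u w : ℝ) : ℂ) *
      (X w v : ℂ)) * χ (-u) * ψ v := by
    calc lam S χ * TT X χ ψ = ∑ w, ∑ v, (X w v : ℂ) * ψ v * (∑ s ∈ S, χ (-(s + w))) := by
          unfold TT
          rw [Finset.mul_sum]
          apply Finset.sum_congr rfl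
          intro w _
          rw [Finset.mul_sum]
          apply Finset.sum_congr rfl
          intro v _
          have : ∑ s ∈ S, χ (-(s + w)) = lam S χ * χ (-w) := by
            rw [← lam_neg hneg, Finset.sum_mul]
            apply Finset.sum_congr rfl
            intro s _
            rw [← AddChar.map_add_eq_mul]
            congr 1
            abel
          rw [this]
          ring
      _ = ∑ w, ∑ v, ∑ u, (((cay S h0 hneg).adjMatrix ℝ u w : ℝ) : ℂ) * (X w v : ℂ) *
            χ (-u) * ψ v := by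
          apply Finset.sum_congr rfl
          intro w _
          apply Finset.sum_congr rfl
          intro v _
          rw [← sum_adj_left (h0 := h0) (hneg := hneg) (fun u => χ (-u)) w, Finset.mul_sum]
          apply Finset.sum_congr rfl
          intro u _
          ring
      _ = ∑ u, ∑ v, ∑ w, (((cay S h0 hneg).adjMatrix ℝ u w : ℝ) : ℂ) * (X w v : ℂ) *
            χ (-u) * ψ v := by
          rw [Finset.sum_congr rfl fun w _ => Finset.sum_comm]
          rw [Finset.sum_comm]
          exact Finset.sum_congr rfl fun u _ => Finset.sum_comm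
      _ = _ := by
          apply Finset.sum_congr rfl
          intro u _
          apply Finset.sum_congr rfl
          intro v _
          rw [Finset.sum_mul, Finset.sum_mul]
  have h2 : lam S ψ * TT X χ ψ = ∑ u, ∑ v, (∑ w, (X u w : ℂ) *
      (((cay S h0 hneg).adjMatrix ℝ w v : ℝ) : ℂ)) * χ (-u) * ψ v := by
    calc lam S ψ * TT X χ ψ = ∑ u, ∑ w, (X u w : ℂ) * χ (-u) * (∑ s ∈ S, ψ (s + w)) := by
          unfold TT
          rw [Finset.mul_sum]
          apply Finset.sum_congr rfl
          intro w _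
          rw [Finset.mul_sum]
          apply Finset.sum_congr rfl
          intro v _
          have : ∑ s ∈ S, ψ (s + v) = lam S ψ * ψ v := by
            unfold lam
            rw [Finset.sum_mul]
            apply Finset.sum_congr rfl
            intro s _
            rw [← AddChar.map_add_eq_mul]
          rw [this]
          ring
      _ = ∑ u, ∑ w, ∑ v, (X u w : ℂ) * (((cay S h0 hneg).adjMatrix ℝ w v : ℝ) : ℂ) *
            χ (-u) * ψ v := by
          apply Finset.sum_congr rfl
          intro u _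
          apply Finset.sum_congr rfl
          intro w _
          rw [← sum_adj_right (h0 := h0) (hneg := hneg) (fun u => ψ u) w, Finset.mul_sum]
          apply Finset.sum_congr rfl
          intro u _
          ring
      _ = ∑ u, ∑ v, ∑ w, (X u w : ℂ) * (((cay S h0 hneg).adjMatrix ℝ w v : ℝ) : ℂ) *
            χ (-u) * ψ v := by
          exact Finset.sum_congr rfl fun u _ => Finset.sum_comm
      _ = _ := by
          apply Finset.sum_congr rfl
          intro u _
          apply Finset.sum_congr rfl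
          intro v _
          rw [Finset.sum_mul, Finset.sum_mul]
  rw [sub_mul, h1, h2, sub_eq_zero]
  apply Finset.sum_congr rfl
  intro u _
  apply Finset.sum_congr rfl
  intro v _
  rw [hc' u v]

lemma sum_neg_char (χ : AddChar R ℂ) (hχ : χ ≠ 1) : ∑ u, χ (-u) = 0 := by
  rw [show (∑ u, χ (-u)) = ∑ u, (χ⁻¹) u from rfl]
  rw [AddChar.sum_eq_zero_iff_ne_zero]
  intro h
  apply hχ
  rw [← AddChar.one_eq_zero] at h
  exact inv_eq_one.1 h

lemma TT_one_left {X : Matrix R R ℝ} (hc : ∀ v, ∑ u, X u v = 1) (ψ : AddChar R ℂ) (hψ : ψ ≠ 1) :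
    TT X 1 ψ = 0 := by
  unfold TT
  rw [Finset.sum_comm]
  have : ∀ v, ∑ u, (X u v : ℂ) * (1 : AddChar R ℂ) (-u) * ψ v = ψ v := by
    intro v
    have h2 : (∑ u, (X u v : ℂ)) = 1 := by
      have := hc v
      exact_mod_cast this
    rw [← Finset.sum_mul]
    simp only [AddChar.one_apply, mul_one]
    rw [h2, one_mul]
  rw [Finset.sum_congr rfl fun v _ => this v]
  exact AddChar.sum_eq_zero_iff_ne_zero.2 hψ

lemma TT_one_right {X : Matrix R R ℝ} (hr : ∀ u, ∑ v, X u v = 1) (χ : AddChar R ℂ)
    (hχ : χ ≠ 1) : TT X χ 1 = 0 := by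
  unfold TT
  have : ∀ u, ∑ v, (X u v : ℂ) * χ (-u) * (1 : AddChar R ℂ) v = χ (-u) := by
    intro u
    have h2 : (∑ v, (X u v : ℂ)) = 1 := by
      have := hr u
      exact_mod_cast this
    simp only [AddChar.one_apply, mul_one]
    rw [← Finset.sum_mul, h2, one_mul]
  rw [Finset.sum_congr rfl fun v _ => this v]
  exact sum_neg_char χ hχ

lemma TT_inv (X : Matrix R R ℝ) (u v : R) :
    ∑ χ : AddChar R ℂ, ∑ ψ : AddChar R ℂ, TT X χ ψ * χ u * ψ (-v)
      = (Fintype.card R : ℂ) ^ 2 * X u v := by
  have h1 : ∀ χ ψ : AddChar R ℂ, TT X χ ψ * χ u * ψ (-v)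
      = ∑ a, ∑ b, (X a b : ℂ) * χ (u - a) * ψ (b - v) := by
    intro χ ψ
    unfold TT
    rw [Finset.sum_mul, Finset.sum_mul]
    apply Finset.sum_congr rfl
    intro a _
    rw [Finset.sum_mul, Finset.sum_mul]
    apply Finset.sum_congr rfl
    intro b _
    rw [sub_eq_add_neg, sub_eq_add_neg, AddChar.map_add_eq_mul, AddChar.map_add_eq_mul]
    ring
  calc ∑ χ : AddChar R ℂ, ∑ ψ : AddChar R ℂ, TT X χ ψ * χ u * ψ (-v)
      = ∑ χ : AddChar R ℂ, ∑ ψ : AddChar R ℂ, ∑ a, ∑ b, (X a b : ℂ) * χ (u - a) * ψ (b - v) := by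
        exact Finset.sum_congr rfl fun χ _ => Finset.sum_congr rfl fun ψ _ => h1 χ ψ
    _ = ∑ a, ∑ b, ∑ χ : AddChar R ℂ, ∑ ψ : AddChar R ℂ, (X a b : ℂ) * χ (u - a) * ψ (b - v) := by
        rw [Finset.sum_congr rfl fun χ _ => Finset.sum_comm]
        rw [Finset.sum_comm]
        apply Finset.sum_congr rfl
        intro a _
        rw [Finset.sum_congr rfl fun χ _ => Finset.sum_comm]
        rw [Finset.sum_comm]
    _ = ∑ a, ∑ b, (X a b : ℂ) * (∑ χ : AddChar R ℂ, χ (u - a)) *
          (∑ ψ : AddChar R ℂ, ψ (b - v)) := by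
        apply Finset.sum_congr rfl
        intro a _
        apply Finset.sum_congr rfl
        intro b _
        rw [mul_assoc, Finset.sum_mul_sum, Finset.mul_sum]
        apply Finset.sum_congr rfl
        intro χ _
        rw [Finset.mul_sum]
        apply Finset.sum_congr rfl
        intro ψ _
        ring
    _ = _ := by
        rw [Finset.sum_eq_single u]
        · rw [Finset.sum_eq_single v]
          · rw [AddChar.sum_apply_eq_ite, AddChar.sum_apply_eq_ite]
            simp only [sub_self, if_true]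
            ring
          · intro b _ hb
            rw [AddChar.sum_apply_eq_ite (b - v)]
            rw [if_neg (fun h => hb (sub_eq_zero.1 h))]
            ring
          · intro h; exact absurd (Finset.mem_univ v) h
        · intro a _ ha
          apply Finset.sum_eq_zero
          intro b _
          rw [AddChar.sum_apply_eq_ite (u - a)]
          rw [if_neg (fun h => ha (sub_eq_zero.1 h).symm)]
          ring
        · intro h; exact absurd (Finset.mem_univ u) h

/-- Under the spectral condition a fractional automorphism is a function of the difference plus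
a function of the sum. -/
lemma exists_ab {X : Matrix R R ℝ} (hX : X ∈ fracAut (cay S h0 hneg))
    (hsp : ∀ χ ψ : AddChar R ℂ, χ ≠ 1 → ψ ≠ 1 → lam S χ = lam S ψ → ψ = χ ∨ ψ = χ⁻¹) :
    ∃ a b : R → ℝ, ∀ u v, X u v = a (u - v) + b (u + v) := by
  classical
  set n : ℂ := (Fintype.card R : ℂ) with hn
  have hn0 : n ≠ 0 := by
    rw [hn]
    have : Fintype.card R ≠ 0 := Fintype.card_ne_zero
    exact_mod_cast this
  have hT : ∀ χ ψ : AddChar R ℂ, ψ ≠ χ → ψ ≠ χ⁻¹ → TT X χ ψ = 0 := by
    intro χ ψ h1 h2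
    by_cases hχ : χ = 1
    · subst hχ
      exact TT_one_left hX.2.2.1 ψ h1
    · by_cases hψ : ψ = 1
      · subst hψ
        exact TT_one_right hX.2.1 χ hχ
      · have := TT_comm hX χ ψ
        rcases mul_eq_zero.1 this with h | h
        · rcases hsp χ ψ hχ hψ (sub_eq_zero.1 h) with h' | h'
          · exact absurd h' h1
          · exact absurd h' h2
        · exact h
  let a : R → ℂ := fun d => (n ^ 2)⁻¹ * ∑ χ : AddChar R ℂ, TT X χ χ * χ d
  let b : R → ℂ := fun d => (n ^ 2)⁻¹ * ∑ χ : AddChar R ℂ,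
    (if χ⁻¹ = χ then 0 else TT X χ χ⁻¹ * χ d)
  have key : ∀ u v, (X u v : ℂ) = a (u - v) + b (u + v) := by
    intro u v
    have h1 := TT_inv X u v
    have h2 : ∀ χ : AddChar R ℂ, ∑ ψ : AddChar R ℂ, TT X χ ψ * χ u * ψ (-v)
        = TT X χ χ * χ (u - v) + (if χ⁻¹ = χ then 0 else TT X χ χ⁻¹ * χ (u + v)) := by
      intro χ
      by_cases h : χ⁻¹ = χ
      · rw [if_pos h, add_zero, Finset.sum_eq_single χ]
        · rw [sub_eq_add_neg, AddChar.map_add_eq_mul]
          ring
        · intro ψ _ hψ
          rw [hT χ ψ hψ (by rw [h]; exact hψ)]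
          ring
        · intro h'; exact absurd (Finset.mem_univ χ) h'
      · rw [if_neg h]
        have hne : χ ≠ χ⁻¹ := fun h' => h h'.symm
        rw [← Finset.sum_subset (Finset.subset_univ ({χ, χ⁻¹} : Finset (AddChar R ℂ)))]
        · rw [Finset.sum_pair hne]
          rw [sub_eq_add_neg, AddChar.map_add_eq_mul, AddChar.map_add_eq_mul,
            AddChar.inv_apply, neg_neg]
          ring
        · intro ψ _ hψ
          rw [Finset.mem_insert, Finset.mem_singleton, not_or] at hψ
          rw [hT χ ψ hψ.1 hψ.2]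
          ring
    rw [Finset.sum_congr rfl fun χ _ => h2 χ, Finset.sum_add_distrib] at h1
    show (X u v : ℂ) = (n ^ 2)⁻¹ * _ + (n ^ 2)⁻¹ * _
    rw [← mul_add, h1, ← mul_assoc, inv_mul_cancel₀ (pow_ne_zero 2 hn0), one_mul]
  refine ⟨fun d => (a d).re, fun d => (b d).re, fun u v => ?_⟩
  have := congrArg Complex.re (key u v)
  rw [Complex.ofReal_re, Complex.add_re] at this
  exact this

/-- Under the spectral condition the support of every fractional automorphism contains a
translation or a point reflection. -/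
lemma exists_supp {X : Matrix R R ℝ} (hX : X ∈ fracAut (cay S h0 hneg))
    (hsp : ∀ χ ψ : AddChar R ℂ, χ ≠ 1 → ψ ≠ 1 → lam S χ = lam S ψ → ψ = χ ∨ ψ = χ⁻¹) :
    ∃ d : R, (∀ v, 0 < X (v + d) v) ∨ (∀ v, 0 < X (d - v) v) := by
  obtain ⟨a, b, hab⟩ := exists_ab hX hsp
  have hmin : ∀ d : R, ∃ r : R, ∀ r' : R, a (d + 2 • r) ≤ a (d + 2 • r') := by
    intro d
    obtain ⟨r, -, hr⟩ := Finset.exists_min_image (Finset.univ : Finset R)
      (fun r => a (d + 2 • r)) ⟨0, Finset.mem_univ _⟩
    exact ⟨r, fun r' => hr r' (Finset.mem_univ _)⟩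
  choose r hr using hmin
  set t : R → ℝ := fun d => a (d + 2 • r d) with ht
  have ht2 : ∀ d x, t (d + 2 • x) = t d := by
    intro d x
    apply le_antisymm
    · have := hr (d + 2 • x) (r d - x)
      have he : d + 2 • x + 2 • (r d - x) = d + 2 • r d := by
        rw [smul_sub]; abel
      rw [he] at this
      exact this
    · have := hr d (x + r (d + 2 • x))
      have he : d + 2 • (x + r (d + 2 • x)) = d + 2 • x + 2 • r (d + 2 • x) := by
        rw [smul_add]; abel
      rw [he] at this
      exact this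
  have ha' : ∀ d, 0 ≤ a d - t d := by
    intro d
    have := hr d 0
    rw [smul_zero, add_zero] at this
    show 0 ≤ a d - a (d + 2 • r d)
    linarith
  have hb' : ∀ s, 0 ≤ b s + t s := by
    intro s
    have h1 := hX.1 (s + r s) (-(r s))
    rw [hab] at h1
    have he : s + r s - -(r s) = s + 2 • r s := by rw [two_smul]; abel
    have he' : s + r s + -(r s) = s := by abel
    rw [he, he'] at h1
    show 0 ≤ b s + a (s + 2 • r s)
    linarith
  have hX' : ∀ u v, X u v = (a (u - v) - t (u - v)) + (b (u + v) + t (u + v)) := by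
    intro u v
    have he : u + v = (u - v) + 2 • v := by rw [two_smul]; abel
    have : t (u + v) = t (u - v) := by rw [he, ht2]
    rw [hab, this]
    ring
  have hsum := hX.2.2.1 0
  by_contra hcon
  push Not at hcon
  have hza : ∀ d, a d - t d = 0 := by
    intro d
    obtain ⟨⟨v, hv⟩, -⟩ := hcon d
    rw [hX'] at hv
    have he : v + d - v = d := by abel
    rw [he] at hv
    have := ha' d
    have := hb' (v + d + v)
    linarith
  have hzb : ∀ d, b d + t d = 0 := by
    intro d
    obtain ⟨-, ⟨v, hv⟩⟩ := hcon d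
    rw [hX'] at hv
    have he : d - v + v = d := by abel
    rw [he] at hv
    have := ha' (d - v - v)
    have := hb' d
    linarith
  have : ∑ u, X u 0 = 0 := by
    apply Finset.sum_eq_zero
    intro u _
    rw [hX', hza, hzb, add_zero]
  rw [this] at hsum
  norm_num at hsum

lemma aut_add (d : R) : IsAut (cay S h0 hneg) (Equiv.addRight d) := by
  intro u v
  rw [cay_adj, cay_adj]
  simp

lemma aut_sub (d : R) : IsAut (cay S h0 hneg) (Equiv.subLeft d) := by
  intro u v
  rw [cay_adj, cay_adj]
  simp only [Equiv.subLeft_apply, sub_sub_sub_cancel_left]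
  constructor
  · intro h
    have := hneg _ h
    rwa [neg_sub] at this
  · intro h
    have := hneg _ h
    rwa [neg_sub] at this

theorem cay_suff
    (hsp : ∀ χ ψ : AddChar R ℂ, χ ≠ 1 → ψ ≠ 1 → lam S χ = lam S ψ → ψ = χ ∨ ψ = χ⁻¹) :
    CompactGraph (cay S h0 hneg) ∧ ∀ g : Equiv.Perm R, IsAut (cay S h0 hneg) g → g 0 = 0 →
      (∀ v, g v = v) ∨ (∀ v, g v = -v) := by
  constructor
  · apply compact_of_support
    intro X hX
    obtain ⟨d, h | h⟩ := exists_supp hX hsp
    · exact ⟨Equiv.addRight d, aut_add d, fun v => h v⟩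
    · exact ⟨Equiv.subLeft d, aut_sub d, fun v => h v⟩
  · intro g hg hg0
    have hX := pm_mem hg
    obtain ⟨d, h | h⟩ := exists_supp hX hsp
    · have h1 : ∀ v, g v = v + d := by
        intro v
        have := h v
        rw [pm_apply] at this
        by_contra hne
        rw [if_neg (fun h' => hne h'.symm)] at this
        exact lt_irrefl _ this
      have hd : d = 0 := by
        have := h1 0
        rw [hg0, zero_add] at this
        exact this.symm
      left
      intro v
      rw [h1, hd, add_zero]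
    · have h1 : ∀ v, g v = d - v := by
        intro v
        have := h v
        rw [pm_apply] at this
        by_contra hne
        rw [if_neg (fun h' => hne h'.symm)] at this
        exact lt_irrefl _ this
      have hd : d = 0 := by
        have := h1 0
        rw [hg0, sub_zero] at this
        exact this.symm
      right
      intro v
      rw [h1, hd, zero_sub]

lemma char_re_le (χ : AddChar R ℂ) (ψ : AddChar R ℂ) (u v : R) :
    -1 ≤ (χ u * ψ v).re := by
  have h1 : ‖χ u * ψ v‖ = 1 := by
    rw [norm_mul, AddChar.norm_apply, AddChar.norm_apply, one_mul]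
  have := Complex.abs_re_le_norm (χ u * ψ v)
  rw [h1] at this
  exact (abs_le.1 this).1

/-- The witness matrix. -/
noncomputable def wit (χ ψ : AddChar R ℂ) : Matrix R R ℝ := fun u v =>
  (Fintype.card R : ℝ)⁻¹ * (1 + (χ u * ψ (-v)).re)

lemma wit_mem {χ ψ : AddChar R ℂ} (hχ : χ ≠ 1) (hψ : ψ ≠ 1) (he : lam S χ = lam S ψ) :
    wit χ ψ ∈ fracAut (cay S h0 hneg) := by
  have hcard : (Fintype.card R : ℝ) ≠ 0 := by
    have : Fintype.card R ≠ 0 := Fintype.card_ne_zero
    exact_mod_cast this
  refine ⟨?_, ?_, ?_, ?_⟩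
  · intro u v
    unfold wit
    have := char_re_le χ ψ u (-v)
    apply mul_nonneg (inv_nonneg.2 (by positivity))
    linarith
  · intro u
    unfold wit
    rw [← Finset.mul_sum, Finset.sum_add_distrib, ← Complex.re_sum, ← Finset.mul_sum,
      sum_neg_char ψ hψ, mul_zero]
    simp [hcard]
  · intro v
    unfold wit
    rw [← Finset.mul_sum, Finset.sum_add_distrib, ← Complex.re_sum, ← Finset.sum_mul,
      AddChar.sum_eq_zero_iff_ne_zero.2 hχ, zero_mul]
    simp [hcard]
  · ext u v
    rw [Matrix.mul_apply, Matrix.mul_apply]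
    have hL : ∑ w, (cay S h0 hneg).adjMatrix ℝ u w * wit χ ψ w v
        = (Fintype.card R : ℝ)⁻¹ * (S.card + (lam S χ * (χ u * ψ (-v))).re) := by
      have h1 := sum_adj_right (h0 := h0) (hneg := hneg)
        (fun w => (1 : ℂ) + χ w * ψ (-v)) u
      have h2 := congrArg Complex.re h1
      rw [Complex.re_sum] at h2
      have h3 : ∀ w, ((((cay S h0 hneg).adjMatrix ℝ u w : ℝ) : ℂ) *
          ((1 : ℂ) + χ w * ψ (-v))).re
          = (cay S h0 hneg).adjMatrix ℝ u w * (1 + (χ w * ψ (-v)).re) := by
        intro w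
        rw [Complex.re_ofReal_mul, Complex.add_re, Complex.one_re]
      rw [Finset.sum_congr rfl fun w _ => h3 w] at h2
      have h4 : ∑ s ∈ S, ((1 : ℂ) + χ (s + u) * ψ (-v))
          = S.card + lam S χ * (χ u * ψ (-v)) := by
        rw [Finset.sum_add_distrib]
        congr 1
        · simp
        · unfold lam
          rw [Finset.sum_mul]
          apply Finset.sum_congr rfl
          intro s _
          rw [AddChar.map_add_eq_mul]
          ring
      rw [h4, Complex.add_re, Complex.natCast_re] at h2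
      rw [← h2, Finset.mul_sum]
      apply Finset.sum_congr rfl
      intro w _
      unfold wit
      ring
    have hR : ∑ w, wit χ ψ u w * (cay S h0 hneg).adjMatrix ℝ w v
        = (Fintype.card R : ℝ)⁻¹ * (S.card + (lam S ψ * (χ u * ψ (-v))).re) := by
      have h1 := sum_adj_left (h0 := h0) (hneg := hneg)
        (fun w => (1 : ℂ) + χ u * ψ (-w)) v
      have h2 := congrArg Complex.re h1
      rw [Complex.re_sum] at h2
      have h3 : ∀ w, ((((cay S h0 hneg).adjMatrix ℝ w v : ℝ) : ℂ) *
          ((1 : ℂ) + χ u * ψ (-w))).re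
          = (cay S h0 hneg).adjMatrix ℝ w v * (1 + (χ u * ψ (-w)).re) := by
        intro w
        rw [Complex.re_ofReal_mul, Complex.add_re, Complex.one_re]
      rw [Finset.sum_congr rfl fun w _ => h3 w] at h2
      have h4 : ∑ s ∈ S, ((1 : ℂ) + χ u * ψ (-(s + v)))
          = S.card + lam S ψ * (χ u * ψ (-v)) := by
        rw [Finset.sum_add_distrib]
        congr 1
        · simp
        · rw [← lam_neg hneg ψ, Finset.sum_mul]
          apply Finset.sum_congr rfl
          intro s _
          rw [neg_add, AddChar.map_add_eq_mul]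
          ring
      rw [h4, Complex.add_re, Complex.natCast_re] at h2
      rw [← h2, Finset.mul_sum]
      apply Finset.sum_congr rfl
      intro w _
      unfold wit
      ring
    rw [hL, hR, he]

/-- The functional that separates the witness from the automorphisms. -/
noncomputable def phi (χ ψ : AddChar R ℂ) (Z : Matrix R R ℝ) : ℝ :=
  ∑ u, ∑ v, Z u v * (χ u * ψ (-v)).re

lemma phi_wit {χ ψ : AddChar R ℂ} (hχ : χ ≠ 1) : 0 < phi χ ψ (wit χ ψ) := by
  have hcard : (0:ℝ) < (Fintype.card R : ℝ)⁻¹ := by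
    have : 0 < Fintype.card R := Fintype.card_pos
    positivity
  have h1 : phi χ ψ (wit χ ψ)
      = (Fintype.card R : ℝ)⁻¹ * ∑ u, ∑ v, ((χ u * ψ (-v)).re) ^ 2 := by
    unfold phi wit
    have : ∀ u v, (Fintype.card R : ℝ)⁻¹ * (1 + (χ u * ψ (-v)).re) * (χ u * ψ (-v)).re
        = (Fintype.card R : ℝ)⁻¹ * (χ u * ψ (-v)).re
          + (Fintype.card R : ℝ)⁻¹ * ((χ u * ψ (-v)).re) ^ 2 := by
      intro u v; ring
    simp only [this, Finset.sum_add_distrib, ← Finset.mul_sum]
    have hz : ∑ u, ∑ v, (χ u * ψ (-v)).re = 0 := by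
      rw [Finset.sum_comm]
      apply Finset.sum_eq_zero
      intro v _
      rw [← Complex.re_sum, ← Finset.sum_mul, AddChar.sum_eq_zero_iff_ne_zero.2 hχ, zero_mul,
        Complex.zero_re]
    rw [hz, mul_zero, zero_add]
  rw [h1]
  apply mul_pos hcard
  refine lt_of_lt_of_le (b := ((χ 0 * ψ (-0)).re) ^ 2) ?_ ?_
  · simp
  · refine le_trans ?_ (Finset.single_le_sum (f := fun u => ∑ v, ((χ u * ψ (-v)).re) ^ 2)
      (fun u _ => Finset.sum_nonneg fun v _ => sq_nonneg _) (Finset.mem_univ (0:R)))
    exact Finset.single_le_sum (f := fun v => ((χ 0 * ψ (-v)).re) ^ 2)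
      (fun v _ => sq_nonneg _) (Finset.mem_univ (0:R))

lemma phi_pm (χ ψ : AddChar R ℂ) (g : Equiv.Perm R) :
    phi χ ψ (pm g) = (∑ v, χ (g v) * ψ (-v)).re := by
  unfold phi
  rw [Finset.sum_comm, Complex.re_sum]
  apply Finset.sum_congr rfl
  intro v _
  rw [Finset.sum_eq_single (g v)]
  · simp [pm_apply]
  · intro b _ hb
    rw [pm_apply, if_neg hb, zero_mul]
  · intro h; exact absurd (Finset.mem_univ _) h

theorem cay_nec (hc : CompactGraph (cay S h0 hneg))
    (hst : ∀ g : Equiv.Perm R, IsAut (cay S h0 hneg) g → g 0 = 0 →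
      (∀ v, g v = v) ∨ (∀ v, g v = -v))
    (χ ψ : AddChar R ℂ) (hχ : χ ≠ 1) (hψ : ψ ≠ 1) (he : lam S χ = lam S ψ) :
    ψ = χ ∨ ψ = χ⁻¹ := by
  by_contra hcon
  push Not at hcon
  obtain ⟨h1, h2⟩ := hcon
  obtain ⟨w, hw0, hw1, hwa, hw⟩ := compact_iff.1 hc _
    (wit_mem (h0 := h0) (hneg := hneg) hχ hψ he)
  have hpos := phi_wit (χ := χ) (ψ := ψ) hχ
  have hg : ∀ g : Equiv.Perm R, IsAut (cay S h0 hneg) g → phi χ ψ (pm g) = 0 := by
    intro g hga
    rw [phi_pm]
    have hga' : IsAut (cay S h0 hneg) (g.trans (Equiv.subRight (g 0))) := by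
      intro u v
      rw [cay_adj]
      simp only [Equiv.trans_apply, Equiv.subRight_apply, sub_sub_sub_cancel_right]
      rw [← cay_adj (h0 := h0) (hneg := hneg)]
      exact hga u v
    have := hst _ hga' (by simp)
    simp only [Equiv.trans_apply, Equiv.subRight_apply] at this
    rcases this with h | h
    · have h3 : ∀ v, χ (g v) * ψ (-v) = χ (g 0) * (χ * ψ⁻¹) v := by
        intro v
        have : g v = g 0 + v := eq_add_of_sub_eq' (h v)
        rw [this, AddChar.map_add_eq_mul, AddChar.mul_apply, AddChar.inv_apply]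
        rw [mul_assoc]
      rw [Finset.sum_congr rfl fun v _ => h3 v, ← Finset.mul_sum]
      have h4 : χ * ψ⁻¹ ≠ 0 := by
        intro h5
        rw [← AddChar.one_eq_zero] at h5
        exact h1 (mul_inv_eq_one.1 h5).symm
      rw [AddChar.sum_eq_zero_iff_ne_zero.2 h4, mul_zero, Complex.zero_re]
    · have h3 : ∀ v, χ (g v) * ψ (-v) = χ (g 0) * (χ⁻¹ * ψ⁻¹) v := by
        intro v
        have : g v = g 0 + -v := eq_add_of_sub_eq' (h v)
        rw [this, AddChar.map_add_eq_mul, AddChar.mul_apply, AddChar.inv_apply,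
          AddChar.inv_apply]
        rw [mul_assoc]
      rw [Finset.sum_congr rfl fun v _ => h3 v, ← Finset.mul_sum]
      have h4 : χ⁻¹ * ψ⁻¹ ≠ 0 := by
        intro h5
        rw [← AddChar.one_eq_zero] at h5
        exact h2 (mul_inv_eq_one.1 h5).symm
      rw [AddChar.sum_eq_zero_iff_ne_zero.2 h4, mul_zero, Complex.zero_re]
  have hlin : phi χ ψ (wit χ ψ) = ∑ g, w g * phi χ ψ (pm g) := by
    rw [← hw]
    unfold phi
    have h3 : ∀ u v, (∑ g, w g • pm g : Matrix R R ℝ) u v * (χ u * ψ (-v)).re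
        = ∑ g, w g * (pm g u v * (χ u * ψ (-v)).re) := by
      intro u v
      rw [Matrix.sum_apply, Finset.sum_mul]
      apply Finset.sum_congr rfl
      intro g _
      rw [Matrix.smul_apply, smul_eq_mul]
      ring
    simp only [h3]
    rw [Finset.sum_congr rfl fun u _ => Finset.sum_comm]
    rw [Finset.sum_comm]
    apply Finset.sum_congr rfl
    intro g _
    rw [Finset.mul_sum]
    apply Finset.sum_congr rfl
    intro u _
    rw [Finset.mul_sum]
  rw [hlin, Finset.sum_eq_zero] at hpos
  · exact lt_irrefl _ hpos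
  · intro g _
    by_cases h : w g = 0
    · rw [h, zero_mul]
    · rw [hg g (hwa g h), mul_zero]

end Run7.h382
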