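import Mathlib
import Pool.Agent.Run7.h382.Basic

open Finset

namespace Run7.h382

set_option linter.unusedSectionVars false

variable {V : Type*} [Fintype V] [DecidableEq V] {ι : Type*} [DecidableEq ι]

/-- The number of vertices of colour `c`. -/
def clsCard (π : V → ι) (c : ι) : ℕ := (univ.filter fun v => π v = c).card

/-- The number of neighbours of `u` of colour `c`. -/
def nb (G : SimpleGraph V) [DecidableRel G.Adj] (π : V → ι) (u : V) (c : ι) : ℕ :=
  (univ.filter fun v => G.Adj u v ∧ π v = c).card

/-- A colouring is equitable if vertices of equal colour have the same number of neighbours of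
every colour. -/
def Equitable (G : SimpleGraph V) [DecidableRel G.Adj] (π : V → ι) : Prop :=
  ∀ u v c, π u = π v → nb G π u c = nb G π v c

/-- The coarsest equitable colouring (the stable colouring found by colour refinement): it is
equitable, and every equitable colouring refines it. -/
def CoarsestEquitable (G : SimpleGraph V) [DecidableRel G.Adj] (π : V → ι) : Prop :=
  Equitable G π ∧ ∀ σ : V → V, Equitable G σ → ∀ u v, σ u = σ v → π u = π v

variable {G : SimpleGraph V} [DecidableRel G.Adj] {π : V → ι}

/-- Fixed vectors of a doubly stochastic matrix are constant along its support. -/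
lemma fixed_vec {X : Matrix V V ℝ} (h0 : ∀ u v, 0 ≤ X u v) (h1 : ∀ u, ∑ v, X u v = 1)
    (h2 : ∀ v, ∑ u, X u v = 1) (f : V → ℝ) (hf : ∀ u, ∑ v, X u v * f v = f u)
    {u v : V} (huv : X u v ≠ 0) : f u = f v := by
  have hz : ∑ u, ∑ v, X u v * (f u - f v) ^ 2 = 0 := by
    have h3 : ∀ u v, X u v * (f u - f v) ^ 2
        = f u ^ 2 * X u v + X u v * f v ^ 2 - 2 * (f u * (X u v * f v)) := by
      intro u v; ring
    simp only [h3, Finset.sum_sub_distrib, Finset.sum_add_distrib]
    have h4 : ∑ u, ∑ v, f u ^ 2 * X u v = ∑ u, f u ^ 2 := by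
      apply Finset.sum_congr rfl
      intro u _
      rw [← Finset.mul_sum, h1, mul_one]
    have h5 : ∑ u, ∑ v, X u v * f v ^ 2 = ∑ u, f u ^ 2 := by
      rw [Finset.sum_comm]
      apply Finset.sum_congr rfl
      intro v _
      rw [← Finset.sum_mul, h2, one_mul]
    have h6 : ∑ u, ∑ v, 2 * (f u * (X u v * f v)) = 2 * ∑ u, f u ^ 2 := by
      rw [Finset.mul_sum]
      apply Finset.sum_congr rfl
      intro u _
      rw [← Finset.mul_sum, ← Finset.mul_sum, hf]
      ring
    rw [h4, h5, h6]
    ring
  have h7 : ∀ u, 0 ≤ ∑ v, X u v * (f u - f v) ^ 2 := fun u =>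
    Finset.sum_nonneg fun v _ => mul_nonneg (h0 u v) (sq_nonneg _)
  have h8 := (Finset.sum_eq_zero_iff_of_nonneg fun u _ => h7 u).1 hz u (Finset.mem_univ u)
  have h9 := (Finset.sum_eq_zero_iff_of_nonneg
    fun v _ => mul_nonneg (h0 u v) (sq_nonneg _)).1 h8 v (Finset.mem_univ v)
  rcases mul_eq_zero.1 h9 with h | h
  · exact absurd h huv
  · exact sub_eq_zero.1 (pow_eq_zero_iff (two_ne_zero)|>.1 h)

lemma nb_real (u : V) (c : ι) :
    (nb G π u c : ℝ) = ∑ x, G.adjMatrix ℝ u x * (if π x = c then 1 else 0) := by
  unfold nb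
  rw [Finset.card_filter]
  push_cast
  apply Finset.sum_congr rfl
  intro x _
  rw [SimpleGraph.adjMatrix_apply]
  by_cases h : G.Adj u x <;> by_cases h' : π x = c <;> simp [h, h']

/-- Fractional automorphisms respect the coarsest equitable colouring. -/
theorem respect (hπ : CoarsestEquitable G π) {X : Matrix V V ℝ} (hX : X ∈ fracAut G) {u v : V}
    (h : X u v ≠ 0) : π u = π v := by
  classical
  let s : Setoid V := Relation.EqvGen.setoid (fun a b => X a b ≠ 0)
  let σ : V → V := fun a => (Quotient.mk s a).out
  have hσ1 : ∀ a b, X a b ≠ 0 → σ a = σ b := by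
    intro a b hab
    have : Quotient.mk s a = Quotient.mk s b := Quotient.sound (Relation.EqvGen.rel a b hab)
    show (Quotient.mk s a).out = (Quotient.mk s b).out
    rw [this]
  have hσ2 : ∀ a b, σ a = σ b → Relation.EqvGen (fun a b => X a b ≠ 0) a b := by
    intro a b hab
    have h1 : Quotient.mk s a = Quotient.mk s b := by
      rw [← Quotient.out_eq (Quotient.mk s a), ← Quotient.out_eq (Quotient.mk s b)]
      exact congrArg _ hab
    exact Quotient.exact h1
  have hE : Equitable G σ := by
    intro a b c hab
    let f : V → ℝ := fun w => nb G σ w c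
    have hone : ∀ a, ∑ x, X a x * (if σ x = c then 1 else 0) = if σ a = c then 1 else 0 := by
      intro a
      have h3 : ∀ x, X a x * (if σ x = c then (1:ℝ) else 0)
          = X a x * (if σ a = c then 1 else 0) := by
        intro x
        by_cases h4 : X a x = 0
        · rw [h4]; simp
        · rw [hσ1 a x h4]
      rw [Finset.sum_congr rfl fun x _ => h3 x, ← Finset.sum_mul, hX.2.1, one_mul]
    have hf : ∀ a, ∑ x, X a x * f x = f a := by
      intro a
      have h3 : ∀ x, X a x * f x = ∑ y, X a x * G.adjMatrix ℝ x y * (if σ y = c then 1 else 0) := by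
        intro x
        show X a x * (nb G σ x c : ℝ) = _
        rw [nb_real, Finset.mul_sum]
        apply Finset.sum_congr rfl
        intro y _
        ring
      rw [Finset.sum_congr rfl fun x _ => h3 x, Finset.sum_comm]
      have h4 : ∀ y, ∑ x, X a x * G.adjMatrix ℝ x y * (if σ y = c then (1:ℝ) else 0)
          = ∑ x, G.adjMatrix ℝ a x * (X x y * (if σ y = c then 1 else 0)) := by
        intro y
        rw [← Finset.sum_mul]
        have := congrFun (congrFun hX.2.2.2 a) y
        rw [Matrix.mul_apply, Matrix.mul_apply] at this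
        rw [← this, Finset.sum_mul]
        apply Finset.sum_congr rfl
        intro x _
        ring
      rw [Finset.sum_congr rfl fun y _ => h4 y, Finset.sum_comm]
      show _ = (nb G σ a c : ℝ)
      rw [nb_real]
      apply Finset.sum_congr rfl
      intro x _
      rw [← Finset.mul_sum, hone]
    have key : ∀ a b, Relation.EqvGen (fun a b => X a b ≠ 0) a b → f a = f b := by
      intro a b h
      induction h with
      | rel x y h => exact fixed_vec hX.1 hX.2.1 hX.2.2.1 f hf h
      | refl x => rfl
      | symm x y _ ih => exact ih.symm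
      | trans x y z _ _ ih1 ih2 => exact ih1.trans ih2
    have h' : (nb G σ a c : ℝ) = nb G σ b c := key a b (hσ2 a b hab)
    exact_mod_cast h'
  exact hπ.2 σ hE u v (hσ1 u v h)

/-- Double counting for equitable colourings. -/
lemma equit_count (hπ : Equitable G π) (u v : V) :
    clsCard π (π u) * nb G π u (π v) = clsCard π (π v) * nb G π v (π u) := by
  have h1 : ∑ x ∈ univ.filter (fun x => π x = π u), nb G π x (π v)
      = clsCard π (π u) * nb G π u (π v) := by
    rw [Finset.sum_const_nat (m := nb G π u (π v))]
    · rfl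
    · intro x hx
      exact hπ x u _ (Finset.mem_filter.1 hx).2
  have h2 : ∑ x ∈ univ.filter (fun x => π x = π v), nb G π x (π u)
      = clsCard π (π v) * nb G π v (π u) := by
    rw [Finset.sum_const_nat (m := nb G π v (π u))]
    · rfl
    · intro x hx
      exact hπ x v _ (Finset.mem_filter.1 hx).2
  rw [← h1, ← h2]
  have h3 : ∀ x c, nb G π x c = ∑ y, if G.Adj x y ∧ π y = c then 1 else 0 := by
    intro x c
    unfold nb
    rw [Finset.card_filter]
  simp only [h3]
  rw [Finset.sum_filter, Finset.sum_filter]
  have h4 : ∀ c d : ι, ∑ a, (if π a = c then ∑ y, (if G.Adj a y ∧ π y = d then 1 else 0) else 0)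
      = ∑ a, ∑ y, (if π a = c ∧ π y = d ∧ G.Adj a y then 1 else 0) := by
    intro c d
    apply Finset.sum_congr rfl
    intro a _
    by_cases h : π a = c
    · rw [if_pos h]
      apply Finset.sum_congr rfl
      intro y _
      by_cases h' : π y = d <;> by_cases h'' : G.Adj a y <;> simp [h, h', h'']
    · rw [if_neg h]
      symm
      apply Finset.sum_eq_zero
      intro y _
      simp [h]
  rw [h4, h4, Finset.sum_comm]
  apply Finset.sum_congr rfl
  intro a _
  apply Finset.sum_congr rfl
  intro b _
  by_cases h : π b = π u <;> by_cases h' : π a = π v <;> by_cases h'' : G.Adj a b <;>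
    simp [h, h', h'', G.adj_comm b a]

lemma clsCard_pos (u : V) : 0 < clsCard π (π u) := by
  unfold clsCard
  apply Finset.card_pos.2
  exact ⟨u, by simp⟩

/-- The averaging matrix of a colouring. -/
noncomputable def avg (π : V → ι) : Matrix V V ℝ :=
  fun u v => if π u = π v then (clsCard π (π u) : ℝ)⁻¹ else 0

lemma sum_avg_aux (c : ι) (r : ℝ) :
    ∑ v : V, (if π v = c then r else 0) = clsCard π c * r := by
  rw [← Finset.sum_filter, Finset.sum_const, nsmul_eq_mul]
  rfl

lemma avg_mem (hπ : Equitable G π) : avg π ∈ fracAut G := by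
  refine ⟨?_, ?_, ?_, ?_⟩
  · intro u v
    unfold avg
    split_ifs
    · positivity
    · exact le_rfl
  · intro u
    unfold avg
    have : ∀ v, (if π u = π v then (clsCard π (π u) : ℝ)⁻¹ else 0)
        = if π v = π u then (clsCard π (π u) : ℝ)⁻¹ else 0 := by
      intro v
      by_cases h : π u = π v
      · rw [if_pos h, if_pos h.symm]
      · rw [if_neg h, if_neg (fun h' => h h'.symm)]
    rw [Finset.sum_congr rfl fun v _ => this v, sum_avg_aux]
    apply mul_inv_cancel₀
    have := clsCard_pos (π := π) u
    positivity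
  · intro v
    unfold avg
    have : ∀ u, (if π u = π v then (clsCard π (π u) : ℝ)⁻¹ else 0)
        = if π u = π v then (clsCard π (π v) : ℝ)⁻¹ else 0 := by
      intro u
      by_cases h : π u = π v
      · rw [if_pos h, if_pos h, h]
      · rw [if_neg h, if_neg h]
    rw [Finset.sum_congr rfl fun v _ => this v, sum_avg_aux]
    apply mul_inv_cancel₀
    have := clsCard_pos (π := π) v
    positivity
  · ext u v
    rw [Matrix.mul_apply, Matrix.mul_apply]
    have hL : ∑ x, G.adjMatrix ℝ u x * avg π x v
        = (clsCard π (π v) : ℝ)⁻¹ * nb G π u (π v) := by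
      rw [nb_real, Finset.mul_sum]
      apply Finset.sum_congr rfl
      intro x _
      unfold avg
      by_cases h : π x = π v
      · rw [if_pos h, if_pos h, h]; ring
      · rw [if_neg h, if_neg h]; ring
    have hR : ∑ x, avg π u x * G.adjMatrix ℝ x v
        = (clsCard π (π u) : ℝ)⁻¹ * nb G π v (π u) := by
      rw [nb_real, Finset.mul_sum]
      apply Finset.sum_congr rfl
      intro x _
      unfold avg
      rw [SimpleGraph.adjMatrix_apply, SimpleGraph.adjMatrix_apply]
      have hc : G.Adj x v ↔ G.Adj v x := G.adj_comm x v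
      by_cases h : π u = π x
      · by_cases hA : G.Adj v x
        · simp [h, hA, hc]
        · simp [h, hA, hc]
      · have h' : ¬ π x = π u := fun h' => h h'.symm
        simp [h, h']
    rw [hL, hR]
    have h1 := equit_count hπ u v
    have h2 : (clsCard π (π u) : ℝ) * nb G π u (π v) = clsCard π (π v) * nb G π v (π u) := by
      exact_mod_cast h1
    have h3 : (clsCard π (π u) : ℝ) ≠ 0 := by
      have := clsCard_pos (π := π) u
      positivity
    have h4 : (clsCard π (π v) : ℝ) ≠ 0 := by
      have := clsCard_pos (π := π) v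
      positivity
    field_simp
    linarith

/-- The support of a doubly stochastic matrix contains a permutation. -/
lemma birkhoff_support {X : Matrix V V ℝ} (h0 : ∀ u v, 0 ≤ X u v)
    (h1 : ∀ u, ∑ v, X u v = 1) (h2 : ∀ v, ∑ u, X u v = 1) :
    ∃ τ : Equiv.Perm V, ∀ v, 0 < X (τ v) v := by
  have hX : X ∈ doublyStochastic ℝ V := by
    rw [mem_doublyStochastic_iff_sum]
    exact ⟨h0, h1, h2⟩
  obtain ⟨w, hw0, hw1, hw⟩ := exists_eq_sum_perm_of_mem_doublyStochastic hX
  obtain ⟨s, hs⟩ : ∃ s, 0 < w s := by
    by_contra hcon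
    push Not at hcon
    have : ∑ s, w s = 0 := Finset.sum_eq_zero fun s _ => le_antisymm (hcon s) (hw0 s)
    rw [hw1] at this
    norm_num at this
  have hpos : ∀ u, 0 < X u (s u) := by
    intro u
    rw [← hw, Matrix.sum_apply]
    refine lt_of_lt_of_le hs ?_
    have : w s = (w s • s.permMatrix ℝ) u (s u) := by
      simp [Equiv.toPEquiv_apply]
    rw [this]
    apply Finset.single_le_sum (f := fun c => (w c • c.permMatrix ℝ) u (s u)) _
      (Finset.mem_univ s)
    intro c _
    simp only [Matrix.smul_apply, smul_eq_mul]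
    apply mul_nonneg (hw0 c)
    exact nonneg_of_mem_doublyStochastic permMatrix_mem_doublyStochastic
  refine ⟨s.symm, fun v => ?_⟩
  have := hpos (s.symm v)
  rwa [Equiv.apply_symm_apply] at this

/-- Fractional automorphisms of a graph and of its complement are the same. -/
lemma mem_compl {X : Matrix V V ℝ} (hX : X ∈ fracAut G) : X ∈ fracAut Gᶜ := by
  refine ⟨hX.1, hX.2.1, hX.2.2.1, ?_⟩
  ext u v
  have h1 : (Gᶜ.adjMatrix ℝ * X) u v = 1 - X u v - (G.adjMatrix ℝ * X) u v := by
    rw [Matrix.mul_apply, Matrix.mul_apply]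
    have h2 : ∀ x, Gᶜ.adjMatrix ℝ u x * X x v
        = X x v - (if x = u then X x v else 0) - G.adjMatrix ℝ u x * X x v := by
      intro x
      rw [SimpleGraph.adjMatrix_apply, SimpleGraph.adjMatrix_apply]
      by_cases hx : x = u
      · subst hx; simp
      · have hx' : ¬ u = x := fun h => hx h.symm
        by_cases hA : G.Adj u x
        · simp [hx, hx', hA]
        · simp [hx, hx', hA]
    rw [Finset.sum_congr rfl fun x _ => h2 x, Finset.sum_sub_distrib, Finset.sum_sub_distrib,
      hX.2.2.1]
    simp
  have h1' : (X * Gᶜ.adjMatrix ℝ) u v = 1 - X u v - (X * G.adjMatrix ℝ) u v := by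
    rw [Matrix.mul_apply, Matrix.mul_apply]
    have h2 : ∀ x, X u x * Gᶜ.adjMatrix ℝ x v
        = X u x - (if x = v then X u x else 0) - X u x * G.adjMatrix ℝ x v := by
      intro x
      rw [SimpleGraph.adjMatrix_apply, SimpleGraph.adjMatrix_apply]
      by_cases hx : x = v
      · subst hx; simp
      · by_cases hA : G.Adj x v
        · simp [hx, hA]
        · simp [hx, hA]
    rw [Finset.sum_congr rfl fun x _ => h2 x, Finset.sum_sub_distrib, Finset.sum_sub_distrib,
      hX.2.1]
    simp
  rw [h1, h1', hX.2.2.2]

end Run7.h382
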