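import Mathlib
import Pool.Agent.Run7.h382.Equit

open Finset

namespace Run7.h382

set_option linter.unusedSectionVars false

variable {V : Type*} [Fintype V] [DecidableEq V] {ι : Type*} [DecidableEq ι]

/-- `u` and `u'` are mates in `H`: they are adjacent in `H`, and each is the only neighbour of
the other in its colour class. -/
def Mate (H : SimpleGraph V) (π : V → ι) (u u' : V) : Prop :=
  H.Adj u u' ∧ (∀ x, π x = π u' → H.Adj u x → x = u') ∧ (∀ x, π x = π u → H.Adj u' x → x = u)

/-- One step of parallel transport, from a pair of vertices of one colour to a pair of vertices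
of another colour: `p.1, q.1` and `p.2, q.2` are mates in `G`, or both are mates in the
complement of `G`. -/
def Step (G : SimpleGraph V) (π : V → ι) (p q : V × V) : Prop :=
  π p.1 = π p.2 ∧ π q.1 = π q.2 ∧ π p.1 ≠ π q.1 ∧
    ((Mate G π p.1 q.1 ∧ Mate G π p.2 q.2) ∨ (Mate Gᶜ π p.1 q.1 ∧ Mate Gᶜ π p.2 q.2))

/-- Every colour class `C` with at least four vertices induces an empty or a complete graph, and
every vertex outside `C` has `0`, `1`, `|C| - 1` or `|C|` neighbours in `C`. -/
def MatchingLinked (G : SimpleGraph V) [DecidableRel G.Adj] (π : V → ι) : Prop :=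
  (∀ u, 4 ≤ clsCard π (π u) → nb G π u (π u) = 0 ∨ nb G π u (π u) + 1 = clsCard π (π u)) ∧
  (∀ u c, c ≠ π u → 4 ≤ clsCard π c → nb G π u c = 0 ∨ nb G π u c = 1 ∨
    nb G π u c + 1 = clsCard π c ∨ nb G π u c = clsCard π c)

variable {G H : SimpleGraph V} [DecidableRel G.Adj] [DecidableRel H.Adj] {π : V → ι}

lemma Mate.symm {u u' : V} (h : Mate H π u u') : Mate H π u' u :=
  ⟨h.1.symm, h.2.2, h.2.1⟩

lemma Mate.unique {u a b : V} (ha : Mate H π u a) (hb : Mate H π u b) (hab : π a = π b) :
    a = b := by
  exact hb.2.1 a hab ha.1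

lemma mate_inv {X : Matrix V V ℝ} (hX : X ∈ fracAut H) (hr : ∀ u v, X u v ≠ 0 → π u = π v)
    {u v u' v' : V} (hu : Mate H π u u') (hv : Mate H π v v') (h1 : π u = π v)
    (h2 : π u' = π v') : X u v = X u' v' := by
  have h3 : (H.adjMatrix ℝ * X) u' v = X u v := by
    rw [Matrix.mul_apply, Finset.sum_eq_single u]
    · rw [SimpleGraph.adjMatrix_apply, if_pos hu.1.symm, one_mul]
    · intro x _ hx
      rw [SimpleGraph.adjMatrix_apply]
      by_cases hA : H.Adj u' x
      · by_cases hz : X x v = 0
        · rw [hz, mul_zero]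
        · exact absurd (hu.2.2 x ((hr x v hz).trans h1.symm) hA) hx
      · rw [if_neg hA, zero_mul]
    · intro h; exact absurd (Finset.mem_univ _) h
  have h4 : (X * H.adjMatrix ℝ) u' v = X u' v' := by
    rw [Matrix.mul_apply, Finset.sum_eq_single v']
    · rw [SimpleGraph.adjMatrix_apply, if_pos hv.1.symm, mul_one]
    · intro x _ hx
      rw [SimpleGraph.adjMatrix_apply]
      by_cases hA : H.Adj x v
      · by_cases hz : X u' x = 0
        · rw [hz, zero_mul]
        · exact absurd (hv.2.1 x ((hr u' x hz).symm.trans h2) hA.symm) hx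
      · rw [if_neg hA, mul_zero]
    · intro h; exact absurd (Finset.mem_univ _) h
  rw [← h3, ← h4, hX.2.2.2]

lemma step_inv {X : Matrix V V ℝ} (hX : X ∈ fracAut G) (hr : ∀ u v, X u v ≠ 0 → π u = π v)
    {p q : V × V} (h : Step G π p q) : X p.1 p.2 = X q.1 q.2 := by
  obtain ⟨h1, h2, h3, h4 | h4⟩ := h
  · exact mate_inv hX hr h4.1 h4.2 h1 h2
  · exact mate_inv (mem_compl hX) hr h4.1 h4.2 h1 h2

lemma steps_inv {X : Matrix V V ℝ} (hX : X ∈ fracAut G) (hr : ∀ u v, X u v ≠ 0 → π u = π v)
    {p q : V × V} (h : Relation.ReflTransGen (Step G π) p q) : X p.1 p.2 = X q.1 q.2 := by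
  induction h with
  | refl => rfl
  | tail _ h ih => rw [ih]; exact step_inv hX hr h

lemma Step.symm {p q : V × V} (h : Step G π p q) : Step G π q p := by
  obtain ⟨h1, h2, h3, h4 | h4⟩ := h
  · exact ⟨h2, h1, h3.symm, Or.inl ⟨h4.1.symm, h4.2.symm⟩⟩
  · exact ⟨h2, h1, h3.symm, Or.inr ⟨h4.1.symm, h4.2.symm⟩⟩

lemma steps_symm {p q : V × V} (h : Relation.ReflTransGen (Step G π) p q) :
    Relation.ReflTransGen (Step G π) q p := by
  induction h with
  | refl => exact Relation.ReflTransGen.refl
  | tail _ h ih => exact Relation.ReflTransGen.head h.symm ih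

lemma Step.swap {p q : V × V} (h : Step G π p q) : Step G π (p.2, p.1) (q.2, q.1) := by
  obtain ⟨h1, h2, h3, h4 | h4⟩ := h
  · exact ⟨h1.symm, h2.symm, by rw [← h1, ← h2]; exact h3, Or.inl ⟨h4.2, h4.1⟩⟩
  · exact ⟨h1.symm, h2.symm, by rw [← h1, ← h2]; exact h3, Or.inr ⟨h4.2, h4.1⟩⟩

lemma steps_swap {p q : V × V} (h : Relation.ReflTransGen (Step G π) p q) :
    Relation.ReflTransGen (Step G π) (p.2, p.1) (q.2, q.1) := by
  induction h with
  | refl => exact Relation.ReflTransGen.refl
  | tail _ h ih => exact Relation.ReflTransGen.tail ih h.swap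

lemma steps_cls {p q : V × V} (h : Relation.ReflTransGen (Step G π) p q) (hp : π p.1 = π p.2) :
    π q.1 = π q.2 := by
  induction h with
  | refl => exact hp
  | tail _ h _ => exact h.2.1

lemma isAut_compl {g : Equiv.Perm V} (hg : IsAut G g) : IsAut Gᶜ g := by
  intro u v
  rw [SimpleGraph.compl_adj, SimpleGraph.compl_adj, hg u v]
  simp

lemma aut_respect (hπ : CoarsestEquitable G π) {g : Equiv.Perm V} (hg : IsAut G g) (u : V) :
    π (g u) = π u := by
  apply respect hπ (pm_mem hg)
  rw [pm_apply, if_pos rfl]
  norm_num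

lemma mate_aut {g : Equiv.Perm V} (hg : IsAut H g) (hr : ∀ u, π (g u) = π u) {u u' : V}
    (h : Mate H π u u') : Mate H π (g u) (g u') := by
  refine ⟨(hg u u').2 h.1, ?_, ?_⟩
  · intro x hx hA
    have h1 : H.Adj (g u) (g (g.symm x)) := by rw [Equiv.apply_symm_apply]; exact hA
    have h2 := h.2.1 (g.symm x) (by
      rw [← hr (g.symm x), Equiv.apply_symm_apply, hx, hr]) ((hg _ _).1 h1)
    rw [← h2, Equiv.apply_symm_apply]
  · intro x hx hA
    have h1 : H.Adj (g u') (g (g.symm x)) := by rw [Equiv.apply_symm_apply]; exact hA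
    have h2 := h.2.2 (g.symm x) (by
      rw [← hr (g.symm x), Equiv.apply_symm_apply, hx, hr]) ((hg _ _).1 h1)
    rw [← h2, Equiv.apply_symm_apply]

/-- Necessity: in a compact graph parallel transport around a closed walk that fixes one vertex
of a class fixes every vertex of the class. -/
theorem linked_nec (hπ : CoarsestEquitable G π) (hc : CompactGraph G) (u v w : V)
    (h : Relation.ReflTransGen (Step G π) (u, v) (u, w)) : v = w := by
  by_cases huv : π u = π v
  · obtain ⟨c, hc0, hc1, hca, hcs⟩ := compact_iff.1 hc _ (avg_mem hπ.1)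
    obtain ⟨g, hg⟩ : ∃ g : Equiv.Perm V, c g ≠ 0 ∧ g u = v := by
      by_contra hcon
      push Not at hcon
      have h1 : avg π v u = 0 := by
        rw [← hcs, Matrix.sum_apply]
        apply Finset.sum_eq_zero
        intro g _
        rw [Matrix.smul_apply, smul_eq_mul, pm_apply]
        by_cases h2 : c g = 0
        · rw [h2, zero_mul]
        · rw [if_neg (fun h3 => hcon g h2 h3.symm), mul_zero]
      unfold avg at h1
      rw [if_pos huv.symm] at h1
      have := clsCard_pos (π := π) v
      have h2 : (clsCard π (π v) : ℝ) ≠ 0 := by positivity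
      exact absurd h1 (inv_ne_zero h2)
    have hga := hca g hg.1
    have hgr := aut_respect hπ hga
    have key : ∀ q : V × V, Relation.ReflTransGen (Step G π) (u, g u) q → q.2 = g q.1 := by
      intro q hq
      induction hq with
      | refl => rfl
      | @tail a b _ hs ih =>
        obtain ⟨h1, h2, h3, h4 | h4⟩ := hs
        · have h5 := mate_aut hga hgr h4.1
          rw [← ih] at h5
          exact Mate.unique h4.2 h5 (by rw [hgr]; exact h2.symm)
        · have h5 := mate_aut (isAut_compl hga) hgr h4.1
          rw [← ih] at h5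
          exact Mate.unique h4.2 h5 (by rw [hgr]; exact h2.symm)
    have := key (u, w) (by rw [hg.2]; exact h)
    rw [← hg.2]
    exact this.symm
  · rcases Relation.ReflTransGen.cases_head h with h1 | ⟨b, h1, h2⟩
    · exact congrArg Prod.snd h1
    · exact absurd h1.1 huv

lemma nb_compl_ne {u : V} {c : ι} (h : c ≠ π u) :
    nb Gᶜ π u c + nb G π u c = clsCard π c := by
  unfold nb clsCard
  rw [← Finset.card_union_of_disjoint]
  · congr 1
    ext x
    simp only [mem_union, mem_filter, mem_univ, true_and, SimpleGraph.compl_adj]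
    constructor
    · rintro (⟨-, h1⟩ | ⟨-, h1⟩) <;> exact h1
    · intro h1
      by_cases hA : G.Adj u x
      · exact Or.inr ⟨hA, h1⟩
      · refine Or.inl ⟨⟨?_, hA⟩, h1⟩
        intro h2
        apply h
        rw [← h1, h2]
  · rw [Finset.disjoint_left]
    intro x hx hx'
    simp only [mem_filter, mem_univ, true_and, SimpleGraph.compl_adj] at hx hx'
    exact hx.1.2 hx'.1

lemma nb_compl_self (u : V) :
    nb Gᶜ π u (π u) + nb G π u (π u) + 1 = clsCard π (π u) := by
  unfold nb clsCard
  rw [← Finset.card_union_of_disjoint]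
  · have h1 : (univ.filter fun v => π v = π u) = insert u ((univ.filter fun v => Gᶜ.Adj u v ∧
        π v = π u) ∪ (univ.filter fun v => G.Adj u v ∧ π v = π u)) := by
      ext x
      simp only [mem_union, mem_filter, mem_univ, true_and, SimpleGraph.compl_adj, mem_insert]
      constructor
      · intro h1
        by_cases hx : x = u
        · exact Or.inl hx
        · by_cases hA : G.Adj u x
          · exact Or.inr (Or.inr ⟨hA, h1⟩)
          · exact Or.inr (Or.inl ⟨⟨fun h => hx h.symm, hA⟩, h1⟩)
      · rintro (h1 | h1 | h1)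
        · rw [h1]
        · exact h1.2
        · exact h1.2
    rw [h1, Finset.card_insert_of_notMem]
    simp
  · rw [Finset.disjoint_left]
    intro x hx hx'
    simp only [mem_filter, mem_univ, true_and, SimpleGraph.compl_adj] at hx hx'
    exact hx.1.2 hx'.1

lemma equit_compl (h : Equitable G π) : Equitable Gᶜ π := by
  intro u v c huv
  by_cases hc : c = π u
  · subst hc
    have h1 := nb_compl_self (G := G) (π := π) u
    have h2 := nb_compl_self (G := G) (π := π) v
    rw [← huv] at h2
    have h3 := h u v (π u) huv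
    omega
  · have h1 := nb_compl_ne (G := G) (π := π) (u := u) (c := c) hc
    have h2 := nb_compl_ne (G := G) (π := π) (u := v) (c := c) (by rw [← huv]; exact hc)
    have h3 := h u v c huv
    omega

lemma nb_eq_one_iff {u : V} {c : ι} (h : nb H π u c = 1) :
    ∃ v, H.Adj u v ∧ π v = c ∧ ∀ x, π x = c → H.Adj u x → x = v := by
  unfold nb at h
  obtain ⟨v, hv⟩ := Finset.card_eq_one.1 h
  have h1 : v ∈ univ.filter fun v => H.Adj u v ∧ π v = c := by rw [hv]; simp
  simp only [mem_filter, mem_univ, true_and] at h1
  refine ⟨v, h1.1, h1.2, fun x hx hA => ?_⟩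
  have h2 : x ∈ univ.filter fun v => H.Adj u v ∧ π v = c := by
    simp only [mem_filter, mem_univ, true_and]
    exact ⟨hA, hx⟩
  rw [hv] at h2
  simpa using h2

lemma nb_one_of_unique {u v : V} (h1 : H.Adj u v) (h2 : ∀ x, π x = π v → H.Adj u x → x = v) :
    nb H π u (π v) = 1 := by
  unfold nb
  rw [Finset.card_eq_one]
  refine ⟨v, ?_⟩
  ext x
  simp only [mem_filter, mem_univ, true_and, mem_singleton]
  constructor
  · rintro ⟨h3, h4⟩
    exact h2 x h4 h3
  · rintro rfl
    exact ⟨h1, rfl⟩

lemma mate_of_nb {u v : V} (hE : Equitable H π) (h1 : nb H π u (π v) = 1)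
    (h2 : nb H π v (π u) = 1) : ∃ v', π v' = π v ∧ Mate H π u v' := by
  obtain ⟨v', h3, h4, h5⟩ := nb_eq_one_iff h1
  refine ⟨v', h4, h3, fun x hx => h5 x (hx.trans h4), ?_⟩
  have h6 : nb H π v' (π u) = 1 := by rw [hE v' v _ h4, h2]
  obtain ⟨u', h7, h8, h9⟩ := nb_eq_one_iff h6
  intro x hx hA
  rw [h9 x hx hA, h9 u rfl h3.symm]

lemma mate_lift (hE : Equitable H π) {u u' v : V} (h : Mate H π u u') (hv : π v = π u) :
    ∃ v', π v' = π u' ∧ Mate H π v v' := by
  have h1 : nb H π u (π u') = 1 := nb_one_of_unique h.1 h.2.1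
  have h2 : nb H π u' (π u) = 1 := nb_one_of_unique h.1.symm h.2.2
  apply mate_of_nb hE
  · rw [hE v u _ hv, h1]
  · rw [hv, h2]

lemma nb_le (u : V) (c : ι) : nb H π u c ≤ clsCard π c := by
  unfold nb clsCard
  apply Finset.card_le_card
  intro x hx
  simp only [mem_filter, mem_univ, true_and] at hx ⊢
  exact hx.2

lemma four_cases (hL : MatchingLinked G π) (u : V) (c : ι) (h : c ≠ π u) :
    nb G π u c = 0 ∨ nb G π u c = 1 ∨ nb G π u c + 1 = clsCard π c ∨
      nb G π u c = clsCard π c := by
  by_cases h4 : 4 ≤ clsCard π c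
  · exact hL.2 u c h h4
  · have := nb_le (H := G) (π := π) u c
    omega

lemma mate_of_nb_one (hE : Equitable H π) {u v : V} (h1 : nb H π u (π v) = 1)
    (h2 : nb H π v (π u) = 0 ∨ nb H π v (π u) = 1 ∨
      nb H π v (π u) + 1 = clsCard π (π u) ∨ nb H π v (π u) = clsCard π (π u))
    (h3 : clsCard π (π v) ≠ 1) : ∃ v', π v' = π v ∧ Mate H π u v' := by
  apply mate_of_nb hE h1
  have h4 := equit_count hE u v
  rw [h1, mul_one] at h4
  have h5 := clsCard_pos (π := π) u
  rcases h2 with h | h | h | h
  · rw [h, mul_zero] at h4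
    omega
  · exact h
  · rw [← h] at h4
    have h6 : nb H π v (π u) ∣ 1 := by
      have h7 : nb H π v (π u) ∣ nb H π v (π u) + 1 := ⟨clsCard π (π v), by rw [h4]; ring⟩
      exact (Nat.dvd_add_right (dvd_refl _)).1 h7
    exact Nat.dvd_one.1 h6
  · rw [h] at h4
    have : clsCard π (π v) = 1 := by
      have h6 : clsCard π (π u) * 1 = clsCard π (π u) * clsCard π (π v) := by
        rw [mul_one]; rw [mul_comm]; exact h4
      exact (Nat.eq_of_mul_eq_mul_left h5 h6).symm
    exact absurd this h3

lemma all_adj {u : V} {c : ι} (h : nb H π u c = clsCard π c) {x : V} (hx : π x = c) :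
    H.Adj u x := by
  unfold nb clsCard at h
  have h1 : (univ.filter fun v => H.Adj u v ∧ π v = c) = univ.filter fun v => π v = c := by
    apply Finset.eq_of_subset_of_card_le
    · intro y hy
      simp only [mem_filter, mem_univ, true_and] at hy ⊢
      exact hy.2
    · rw [h]
  have h2 : x ∈ univ.filter fun v => H.Adj u v ∧ π v = c := by
    rw [h1]
    simp only [mem_filter, mem_univ, true_and]
    exact hx
  simp only [mem_filter, mem_univ, true_and] at h2
  exact h2.1

lemma none_adj {u : V} {c : ι} (h : nb H π u c = 0) {x : V} (hx : π x = c) :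
    ¬ H.Adj u x := by
  intro hA
  unfold nb at h
  rw [Finset.card_eq_zero] at h
  have h2 : x ∈ univ.filter fun v => H.Adj u v ∧ π v = c := by
    simp only [mem_filter, mem_univ, true_and]
    exact ⟨hA, hx⟩
  rw [h] at h2
  simp at h2

/-- The possible relations between two different classes. -/
lemma types (hE : Equitable G π) (hL : MatchingLinked G π) {u v : V} (huv : π u ≠ π v) :
    (∀ x y, π x = π u → π y = π v → (G.Adj x y ↔ G.Adj u v)) ∨
    (∃ v', π v' = π v ∧ Mate G π u v') ∨ (∃ v', π v' = π v ∧ Mate Gᶜ π u v') := by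
  have ha := four_cases hL u (π v) (fun h => huv h.symm)
  have hb := four_cases hL v (π u) huv
  have hc1 := nb_compl_ne (G := G) (π := π) (u := u) (c := π v) (fun h => huv h.symm)
  have hc2 := nb_compl_ne (G := G) (π := π) (u := v) (c := π u) huv
  have hzero : nb G π u (π v) = 0 → ∀ x y, π x = π u → π y = π v →
      (G.Adj x y ↔ G.Adj u v) := by
    intro h x y hx hy
    have h1 : ¬ G.Adj x y := none_adj (by rw [hE x u _ hx]; exact h) hy
    have h2 : ¬ G.Adj u v := none_adj h rfl
    exact ⟨fun h => absurd h h1, fun h => absurd h h2⟩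
  have hall : nb G π u (π v) = clsCard π (π v) → ∀ x y, π x = π u → π y = π v →
      (G.Adj x y ↔ G.Adj u v) := by
    intro h x y hx hy
    have h1 : G.Adj x y := all_adj (by rw [hE x u _ hx]; exact h) hy
    have h2 : G.Adj u v := all_adj h rfl
    exact ⟨fun _ => h2, fun _ => h1⟩
  have hv := clsCard_pos (π := π) v
  rcases ha with h | h | h | h
  · exact Or.inl (hzero h)
  · by_cases hd : clsCard π (π v) = 1
    · exact Or.inl (hall (by rw [h, hd]))
    · exact Or.inr (Or.inl (mate_of_nb_one hE h hb hd))
  · by_cases hd : clsCard π (π v) = 1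
    · exact Or.inl (hzero (by omega))
    · refine Or.inr (Or.inr (mate_of_nb_one (equit_compl hE) (by omega) ?_ hd))
      omega
  · exact Or.inl (hall h)

/-- Inside a class the graph is empty or complete. -/
lemma inside (hE : Equitable G π) (hL : MatchingLinked G π) {u v x y : V} (huv : π u = π v)
    (hx : π x = π u) (hy : π y = π u) (hxy : x ≠ y) (h : G.Adj u v) : G.Adj x y := by
  have hself : ∀ a, nb G π a (π a) + 1 ≤ clsCard π (π a) := by
    intro a
    have := nb_compl_self (G := G) (π := π) a
    omega
  have hfull : ∀ a, nb G π a (π a) + 1 = clsCard π (π a) → ∀ b, π b = π a → b ≠ a →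
      G.Adj a b := by
    intro a ha b hb hne
    by_contra hA
    have h1 := nb_compl_self (G := G) (π := π) a
    have h2 : nb Gᶜ π a (π a) = 0 := by omega
    exact none_adj h2 hb ((SimpleGraph.compl_adj _ _ _).2 ⟨fun h => hne h.symm, hA⟩)
  have hpos : nb G π u (π u) ≠ 0 := fun h0 => none_adj h0 huv.symm h
  have key : nb G π u (π u) + 1 = clsCard π (π u) := by
    by_cases h4 : 4 ≤ clsCard π (π u)
    · rcases hL.1 u h4 with h1 | h1
      · exact absurd h1 hpos
      · exact h1
    · have h1 := hself u
      by_contra hcon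
      have h3 : clsCard π (π u) = 3 := by omega
      have h2 : nb G π u (π u) = 1 := by omega
      -- a third vertex of the class
      have hne : u ≠ v := G.ne_of_adj h
      obtain ⟨w, hw, hwu, hwv⟩ : ∃ w, π w = π u ∧ w ≠ u ∧ w ≠ v := by
        by_contra hcon2
        push Not at hcon2
        have h5 : (univ.filter fun a => π a = π u) ⊆ {u, v} := by
          intro a ha
          simp only [mem_filter, mem_univ, true_and] at ha
          simp only [mem_insert, mem_singleton]
          by_cases hau : a = u
          · exact Or.inl hau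
          · exact Or.inr (hcon2 a ha hau)
        have h6 := Finset.card_le_card h5
        have h7 : ({u, v} : Finset V).card ≤ 2 := Finset.card_le_two
        have h8 : clsCard π (π u) ≤ 2 := le_trans h6 h7
        omega
      have hunique : ∀ a b c : V, π a = π u → π b = π u → π c = π u → G.Adj a b → G.Adj a c →
          b = c := by
        intro a b c ha hb hc hab hac
        have h5 : nb G π a (π u) = 1 := by rw [hE a u _ ha, h2]
        obtain ⟨z, -, -, hz⟩ := nb_eq_one_iff h5
        rw [hz b hb hab, hz c hc hac]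
      have h5 : nb G π w (π u) = 1 := by rw [hE w u _ hw, h2]
      obtain ⟨z, hz1, hz2, -⟩ := nb_eq_one_iff h5
      have hz : z ≠ w := fun h' => G.irrefl (h' ▸ hz1)
      have hz' : z = u ∨ z = v := by
        by_contra hcon2
        push Not at hcon2
        have h6 : ({u, v, w, z} : Finset V) ⊆ univ.filter fun a => π a = π u := by
          intro a ha
          simp only [mem_insert, mem_singleton] at ha
          simp only [mem_filter, mem_univ, true_and]
          rcases ha with rfl | rfl | rfl | rfl
          · rfl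
          · exact huv.symm
          · exact hw
          · exact hz2
        have h7 := Finset.card_le_card h6
        have h8 : ({u, v, w, z} : Finset V).card = 4 := by
          rw [Finset.card_insert_of_notMem, Finset.card_insert_of_notMem,
            Finset.card_insert_of_notMem, Finset.card_singleton]
          · simpa using hz.symm
          · simp only [mem_insert, mem_singleton, not_or]
            exact ⟨hwv.symm, hcon2.2.symm⟩
          · simp only [mem_insert, mem_singleton, not_or]
            exact ⟨hne, hwu.symm, hcon2.1.symm⟩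
        have h9 : 4 ≤ clsCard π (π u) := by
          rw [← h8]; exact h7
        omega
      rcases hz' with h6 | h6
      · subst h6
        exact hwv (hunique z w v rfl hw huv.symm hz1.symm h)
      · subst h6
        exact hwu (hunique z w u huv.symm hw rfl hz1.symm h.symm)
  have hkx : nb G π x (π x) + 1 = clsCard π (π x) := by
    rw [hx, hE x u _ hx]; exact key
  exact hfull x hkx y (hy.trans hx.symm) hxy.symm

end Run7.h382
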