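import Mathlib
import Pool.Agent.Run7.h382.Linked

open Finset

namespace Run7.h382

set_option linter.unusedSectionVars false

variable {V : Type*} [Fintype V] [DecidableEq V] {ι : Type*} [DecidableEq ι]

variable {G : SimpleGraph V} [DecidableRel G.Adj] {π : V → ι}

/-- Two vertices of different colours are linked if they are mates in the graph or in its
complement. -/
def Lk (G : SimpleGraph V) (π : V → ι) (u u' : V) : Prop :=
  π u ≠ π u' ∧ (Mate G π u u' ∨ Mate Gᶜ π u u')

lemma Lk.symm {u u' : V} (h : Lk G π u u') : Lk G π u' u :=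
  ⟨h.1.symm, h.2.imp Mate.symm Mate.symm⟩

lemma conn_symm {u u' : V} (h : Relation.ReflTransGen (Lk G π) u u') :
    Relation.ReflTransGen (Lk G π) u' u := by
  induction h with
  | refl => exact Relation.ReflTransGen.refl
  | tail _ h ih => exact Relation.ReflTransGen.head h.symm ih

lemma lift_step (hE : Equitable G π) {a a' y : V} (h : Lk G π a a') (hy : π y = π a) :
    ∃ y', Step G π (a, y) (a', y') := by
  obtain ⟨h1, h2 | h2⟩ := h
  · obtain ⟨y', h3, h4⟩ := mate_lift hE h2 hy
    exact ⟨y', hy.symm, h3.symm, h1, Or.inl ⟨h2, h4⟩⟩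
  · obtain ⟨y', h3, h4⟩ := mate_lift (equit_compl hE) h2 hy
    exact ⟨y', hy.symm, h3.symm, h1, Or.inr ⟨h2, h4⟩⟩

lemma lift (hE : Equitable G π) {a a' y : V} (h : Relation.ReflTransGen (Lk G π) a a')
    (hy : π y = π a) : ∃ y', Relation.ReflTransGen (Step G π) (a, y) (a', y') := by
  induction h with
  | refl => exact ⟨y, Relation.ReflTransGen.refl⟩
  | @tail b c _ hbc ih =>
    obtain ⟨z, hz⟩ := ih
    obtain ⟨z', hz'⟩ := lift_step hE hbc (steps_cls hz hy.symm).symm
    exact ⟨z', Relation.ReflTransGen.tail hz hz'⟩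

lemma proj1 {p q : V × V} (h : Relation.ReflTransGen (Step G π) p q) :
    Relation.ReflTransGen (Lk G π) p.1 q.1 := by
  induction h with
  | refl => exact Relation.ReflTransGen.refl
  | @tail b c _ hbc ih =>
    refine Relation.ReflTransGen.tail ih ⟨hbc.2.2.1, ?_⟩
    exact hbc.2.2.2.imp (fun h => h.1) (fun h => h.1)

/-- Sufficiency. -/
theorem linked_suff (hπ : CoarsestEquitable G π) (hL : MatchingLinked G π)
    (hM : ∀ u v w, Relation.ReflTransGen (Step G π) (u, v) (u, w) → v = w) :
    CompactGraph G := by
  classical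
  have hE := hπ.1
  apply compact_of_support
  intro X hX
  have hr : ∀ u v, X u v ≠ 0 → π u = π v := fun u v h => respect hπ hX h
  have huniq : ∀ {p : V × V} {b z z' : V}, Relation.ReflTransGen (Step G π) p (b, z) →
      Relation.ReflTransGen (Step G π) p (b, z') → z = z' := by
    intro p b z z' h1 h2
    exact hM b z z' ((steps_symm h1).trans h2)
  let s : Setoid V := ⟨Relation.ReflTransGen (Lk G π), fun _ => Relation.ReflTransGen.refl,
    fun h => conn_symm h, fun h h' => h.trans h'⟩
  let q : V → Quotient s := Quotient.mk s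
  have hq : ∀ {u v : V}, q u = q v ↔ Relation.ReflTransGen (Lk G π) u v := by
    intro u v
    exact ⟨fun h => Quotient.exact h, fun h => Quotient.sound h⟩
  let sz : V → ℕ := fun u => (univ.filter fun x => q x = q u).card
  have hszpos : ∀ u, 0 < sz u := fun u => Finset.card_pos.2 ⟨u, by simp⟩
  have hsz : ∀ u v, q u = q v → sz u = sz v := by
    intro u v h
    show (univ.filter fun x => q x = q u).card = (univ.filter fun x => q x = q v).card
    rw [h]
  have hszle : ∀ u v, π u = π v → sz u ≤ sz v := by
    intro u v h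
    have hex : ∀ x, q x = q u → ∃ y, Relation.ReflTransGen (Step G π) (u, v) (x, y) := by
      intro x hx
      exact lift hE (hq.1 hx.symm) h.symm
    let f : V → V := fun x => if hx : q x = q u then (hex x hx).choose else x
    have hf : ∀ x, q x = q u → Relation.ReflTransGen (Step G π) (u, v) (x, f x) := by
      intro x hx
      show Relation.ReflTransGen (Step G π) (u, v) (x, if hx : q x = q u then _ else x)
      rw [dif_pos hx]
      exact (hex x hx).choose_spec
    apply Finset.card_le_card_of_injOn f
    · intro x hx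
      simp only [coe_filter, mem_univ, true_and, Set.mem_ofPred_eq] at hx ⊢
      have := proj1 (steps_swap (hf x hx))
      exact (hq.2 this).symm
    · intro x hx y hy hxy
      simp only [coe_filter, mem_univ, true_and, Set.mem_ofPred_eq] at hx hy
      have h1 := steps_swap (hf x hx)
      have h2 := steps_swap (hf y hy)
      rw [← hxy] at h2
      exact huniq h1 h2
  have hszeq : ∀ u v, π u = π v → sz u = sz v := fun u v h =>
    le_antisymm (hszle u v h) (hszle v u h.symm)
  let Y : Matrix (Quotient s) (Quotient s) ℝ := fun a b =>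
    ∑ u, ∑ v, if q u = a ∧ q v = b then X u v / sz u else 0
  have hY0 : ∀ a b, 0 ≤ Y a b := by
    intro a b
    refine Finset.sum_nonneg fun u _ => Finset.sum_nonneg fun v _ => ?_
    split_ifs
    · exact div_nonneg (hX.1 u v) (by positivity)
    · exact le_rfl
  have hfib : ∀ a : Quotient s, ∑ u, (if q u = a then (1:ℝ) / sz u else 0) = 1 := by
    intro a
    obtain ⟨u0, hu0⟩ := Quotient.exists_rep a
    have hu0' : q u0 = a := hu0
    rw [← hu0']
    have h1 : ∀ u, (if q u = q u0 then (1:ℝ) / sz u else 0)
        = if q u = q u0 then (1:ℝ) / sz u0 else 0 := by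
      intro u
      by_cases h : q u = q u0
      · rw [if_pos h, if_pos h, hsz u u0 h]
      · rw [if_neg h, if_neg h]
    rw [Finset.sum_congr rfl fun u _ => h1 u, ← Finset.sum_filter, Finset.sum_const,
      nsmul_eq_mul]
    have h2 : (sz u0 : ℝ) ≠ 0 := by
      have := hszpos u0
      positivity
    show (sz u0 : ℝ) * (1 / sz u0) = 1
    field_simp
  have hY1 : ∀ a, ∑ b, Y a b = 1 := by
    intro a
    rw [← hfib a]
    show ∑ b, ∑ u, ∑ v, (if q u = a ∧ q v = b then X u v / (sz u : ℝ) else 0) = _
    rw [Finset.sum_comm]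
    apply Finset.sum_congr rfl
    intro u _
    rw [Finset.sum_comm]
    by_cases h : q u = a
    · rw [if_pos h, ← hX.2.1 u, Finset.sum_div]
      apply Finset.sum_congr rfl
      intro v _
      simp [h]
    · rw [if_neg h]
      apply Finset.sum_eq_zero
      intro v _
      apply Finset.sum_eq_zero
      intro b _
      rw [if_neg (fun h' => h h'.1)]
  have hY2 : ∀ b, ∑ a, Y a b = 1 := by
    intro b
    rw [← hfib b]
    show ∑ a, ∑ u, ∑ v, (if q u = a ∧ q v = b then X u v / (sz u : ℝ) else 0) = _
    rw [Finset.sum_congr rfl fun a _ => Finset.sum_comm, Finset.sum_comm]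
    apply Finset.sum_congr rfl
    intro v _
    rw [Finset.sum_comm]
    by_cases h : q v = b
    · rw [if_pos h, ← hX.2.2.1 v, Finset.sum_div]
      apply Finset.sum_congr rfl
      intro u _
      have h1 : ∀ a, (if q u = a ∧ q v = b then X u v / (sz u : ℝ) else 0)
          = if q u = a then X u v / (sz v : ℝ) else 0 := by
        intro a
        by_cases h2 : q u = a
        · rw [if_pos ⟨h2, h⟩, if_pos h2]
          by_cases h3 : X u v = 0
          · rw [h3, zero_div, zero_div]
          · rw [hszeq u v (hr u v h3)]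
        · rw [if_neg (fun h' => h2 h'.1), if_neg h2]
      rw [Finset.sum_congr rfl fun a _ => h1 a]
      simp
    · rw [if_neg h]
      apply Finset.sum_eq_zero
      intro u _
      apply Finset.sum_eq_zero
      intro a _
      rw [if_neg (fun h' => h h'.2)]
  obtain ⟨τ, hτ⟩ := birkhoff_support hY0 hY1 hY2
  have hUW : ∀ b : Quotient s, ∃ u v, q u = τ b ∧ q v = b ∧ 0 < X u v := by
    intro b
    by_contra hcon
    push Not at hcon
    have h1 := hτ b
    have h2 : Y (τ b) b ≤ 0 := by
      refine Finset.sum_nonpos fun u _ => Finset.sum_nonpos fun v _ => ?_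
      split_ifs with h3
      · exact div_nonpos_of_nonpos_of_nonneg (hcon u v h3.1 h3.2) (by positivity)
      · exact le_rfl
    linarith
  choose U W hU hW hUW using hUW
  have hex : ∀ v, ∃ w, Relation.ReflTransGen (Step G π) (W (q v), U (q v)) (v, w) := by
    intro v
    exact lift hE (hq.1 (hW (q v))) (hr _ _ (hUW (q v)).ne')
  choose g hg using hex
  have hgπ : ∀ v, π (g v) = π v := fun v =>
    (steps_cls (hg v) (hr _ _ (hUW (q v)).ne').symm).symm
  have hgX : ∀ v, 0 < X (g v) v := by
    intro v
    have h1 := steps_inv hX hr (steps_swap (hg v))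
    have h2 : X (U (q v)) (W (q v)) = X (g v) v := h1
    rw [← h2]
    exact hUW (q v)
  have hgq : ∀ v, q (g v) = τ (q v) := by
    intro v
    rw [← hU (q v)]
    exact (hq.2 (proj1 (steps_swap (hg v)))).symm
  have hinj : Function.Injective g := by
    intro v v' h
    have h1 : q v = q v' := by
      apply τ.injective
      rw [← hgq, ← hgq, h]
    have h2 := steps_swap (hg v)
    have h3 := steps_swap (hg v')
    rw [← h1, ← h] at h3
    exact huniq h2 h3
  have hmate : ∀ v v', π v ≠ π v' → Mate G π v v' → Mate G π (g v) (g v') := by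
    intro v v' hne hm
    obtain ⟨y, hy1, hy2⟩ := mate_lift hE hm (hgπ v)
    have hs : Step G π (v, g v) (v', y) := ⟨(hgπ v).symm, hy1.symm, hne, Or.inl ⟨hm, hy2⟩⟩
    have h1 : q v = q v' := hq.2 (Relation.ReflTransGen.single ⟨hne, Or.inl hm⟩)
    have h2 := Relation.ReflTransGen.tail (hg v) hs
    rw [h1] at h2
    have h3 : g v' = y := huniq (hg v') h2
    rw [h3]
    exact hy2
  have hmatec : ∀ v v', π v ≠ π v' → Mate Gᶜ π v v' → Mate Gᶜ π (g v) (g v') := by
    intro v v' hne hm
    obtain ⟨y, hy1, hy2⟩ := mate_lift (equit_compl hE) hm (hgπ v)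
    have hs : Step G π (v, g v) (v', y) := ⟨(hgπ v).symm, hy1.symm, hne, Or.inr ⟨hm, hy2⟩⟩
    have h1 : q v = q v' := hq.2 (Relation.ReflTransGen.single ⟨hne, Or.inr hm⟩)
    have h2 := Relation.ReflTransGen.tail (hg v) hs
    rw [h1] at h2
    have h3 : g v' = y := huniq (hg v') h2
    rw [h3]
    exact hy2
  refine ⟨Equiv.ofBijective g (Finite.injective_iff_bijective.1 hinj), ?_, fun v => hgX v⟩
  intro u v
  show G.Adj (g u) (g v) ↔ G.Adj u v
  by_cases huv : π u = π v
  · constructor
    · intro h
      refine inside hE hL (u := g u) (v := g v) ?_ ?_ ?_ ?_ h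
      · rw [hgπ, hgπ]; exact huv
      · rw [hgπ]
      · rw [hgπ]; exact huv.symm
      · intro h'
        rw [h'] at h
        exact G.irrefl h
    · intro h
      refine inside hE hL (u := u) (v := v) huv (hgπ u) ?_ ?_ h
      · rw [hgπ]; exact huv.symm
      · intro h'
        exact G.ne_of_adj h (hinj h')
  · rcases types hE hL huv with h | ⟨v', h1, h2⟩ | ⟨v', h1, h2⟩
    · exact h (g u) (g v) (hgπ u) (hgπ v)
    · have h3 := hmate u v' (by rw [h1]; exact huv) h2
      constructor
      · intro h4
        have h5 := h3.2.1 (g v) (by rw [hgπ, hgπ]; exact h1.symm) h4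
        rw [hinj h5]
        exact h2.1
      · intro h4
        have h5 := h2.2.1 v h1.symm h4
        rw [h5]
        exact h3.1
    · have h3 := hmatec u v' (by rw [h1]; exact huv) h2
      constructor
      · intro h4
        by_contra h5
        have h6 := h2.2.1 v h1.symm
          ((SimpleGraph.compl_adj _ _ _).2 ⟨fun h => huv (by rw [h]), h5⟩)
        rw [h6] at h4
        exact ((SimpleGraph.compl_adj _ _ _).1 h3.1).2 h4
      · intro h4
        by_contra h5
        have h6 := h3.2.1 (g v) (by rw [hgπ, hgπ]; exact h1.symm)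
          ((SimpleGraph.compl_adj _ _ _).2 ⟨fun h => huv (by rw [← hgπ u, h, hgπ]), h5⟩)
        rw [hinj h6] at h4
        exact ((SimpleGraph.compl_adj _ _ _).1 h2.1).2 h4

end Run7.h382
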